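import Pool.Statements.S00272
import Pool.Agent.Work.MP_7f7c16_ag.BaseND
import Pool.Agent.Work.MP_7f7c16_ag.LatData
import Pool.Agent.Work.MP_7f7c16_ag.CM
import Pool.Agent.Work.MP_7f7c16_ag.NotCM
import Pool.Agent.Work.MP_7f7c16_ag.Rad

set_option autoImplicit false
open Pool Pool.MP_7f7c16_ag

namespace Pool.Agent.S00272

open Pool.Agent.Work.MP_7f7c16_ag in
theorem ne_zero_AA {lam : ℤ} (hc1 : chk1 lam = true) (a : Fin 17) : AA lam a ≠ 0 := by
  intro h0
  obtain ⟨b, hb⟩ : ∃ b : Fin 17, b ≠ a := exists_ne a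
  have hdet : (rows (vec sg) (vec ta) (AA lam b) (AA lam a)).det = 0 := by
    apply Matrix.det_eq_zero_of_row_eq_zero 3
    intro j
    have : AA lam a j = 0 := by rw [h0]; rfl
    exact this
  have hdet' : (rows (vec sg) (vec ta) (AA lam a) (AA lam b)).det = 0 := by
    apply Matrix.det_eq_zero_of_row_eq_zero 2
    intro j
    have : AA lam a j = 0 := by rw [h0]; rfl
    exact this
  rcases lt_or_gt_of_ne hb with h | h
  · exact det_ne (chk1_spec hc1 (Fin.lt_def.1 h) a.2) hdet
  · exact det_ne (chk1_spec hc1 (Fin.lt_def.1 h) b.2) hdet'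

open Pool.Agent.Work.MP_7f7c16_ag in
theorem indep_AA {lam : ℤ} (hc1 : chk1 lam = true) (a b : Fin 17) (hab : a ≠ b) :
    LinearIndependent ℚ ![AA lam a, AA lam b] := by
  have key : ∀ a b : Fin 17, a < b → LinearIndependent ℚ ![AA lam a, AA lam b] := by
    intro a b h
    have hdet := det_ne (chk1_spec hc1 (Fin.lt_def.1 h) b.2)
    have hli : LinearIndependent ℚ (rows (vec sg) (vec ta) (AA lam a) (AA lam b)) := by
      have h1 := Matrix.linearIndependent_rows_iff_isUnit (K := ℚ)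
        (A := rows (vec sg) (vec ta) (AA lam a) (AA lam b))
      rw [Matrix.isUnit_iff_isUnit_det, isUnit_iff_ne_zero] at h1
      exact h1.2 hdet
    have h2 := hli.comp ![2, 3] (by decide)
    have e : (rows (vec sg) (vec ta) (AA lam a) (AA lam b)) ∘ ![2, 3]
        = ![AA lam a, AA lam b] := by
      funext i
      fin_cases i <;> rfl
    rw [e] at h2
    exact h2
  rcases lt_or_gt_of_ne hab with h | h
  · exact key a b h
  · have := key b a h
    rw [LinearIndependent.pair_iff] at this ⊢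
    intro s t hst
    have h2 := this t s (by rw [add_comm]; exact hst)
    exact ⟨h2.2, h2.1⟩

open Pool.Agent.Work.MP_7f7c16_ag in
theorem rad_AA {lam : ℤ} (hg : Good (LL lam)) (hc1 : chk1 lam = true) :
    (jac (AA lam)).radical = JE (LL lam) (EE 17) := by
  rw [JE_final hg]
  apply rad_jac
  · intro a b hab
    exact PI_prime' hg (fun e => hab (Fin.ext e)) a.2 b.2
  · exact ne_zero_AA hc1
  · norm_num

/-- The negation of the preceding statement: Over any characteristic-0 field, two plane arrangements in P^3 with isomorphic intersection lattices have R/sqrt(J_F) Cohen-Macaulay exactly when R/sqrt(J_G) is, CM meaning every localization at a prime has a maximal-length regular sequence. -/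
theorem result :
    ¬ (∀ (k : Type) [Field k] [CharZero k] (d e : ℕ) (ℓ : Fin d → Fin 4 → k) (m : Fin e → Fin 4 → k),
      (∀ i, ℓ i ≠ 0) → (∀ i j, i ≠ j → LinearIndependent k ![ℓ i, ℓ j]) →
      (∀ i, m i ≠ 0) → (∀ i j, i ≠ j → LinearIndependent k ![m i, m j]) →
      Nonempty (↥{W : Set (Fin 4 → k) | ∃ S : Finset (Fin d),
                  W = {x : Fin 4 → k | ∀ i ∈ S, ∑ j : Fin 4, ℓ i j * x j = 0}} ≃o
                ↥{W : Set (Fin 4 → k) | ∃ S : Finset (Fin e),
                  W = {x : Fin 4 → k | ∀ i ∈ S, ∑ j : Fin 4, m i j * x j = 0}}) →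
      ((∀ (p : Ideal (MvPolynomial (Fin 4) k ⧸
              ((Ideal.span (Set.range fun i : Fin 4 =>
                  MvPolynomial.pderiv (R := k) i
                    (∏ a : Fin d, ∑ j : Fin 4,
                      (MvPolynomial.C (ℓ a j) * MvPolynomial.X j : MvPolynomial (Fin 4) k)))
                : Ideal (MvPolynomial (Fin 4) k)).radical : Ideal (MvPolynomial (Fin 4) k))))
            [p.IsPrime],
          ∃ rs : List (Localization.AtPrime p),
            (∀ r ∈ rs, r ∈ IsLocalRing.maximalIdeal (Localization.AtPrime p)) ∧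
            RingTheory.Sequence.IsRegular (Localization.AtPrime p) rs ∧
            (rs.length : WithBot ℕ∞) = ringKrullDim (Localization.AtPrime p)) ↔
       (∀ (p : Ideal (MvPolynomial (Fin 4) k ⧸
              ((Ideal.span (Set.range fun i : Fin 4 =>
                  MvPolynomial.pderiv (R := k) i
                    (∏ a : Fin e, ∑ j : Fin 4,
                      (MvPolynomial.C (m a j) * MvPolynomial.X j : MvPolynomial (Fin 4) k)))
                : Ideal (MvPolynomial (Fin 4) k)).radical : Ideal (MvPolynomial (Fin 4) k))))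
            [p.IsPrime],
          ∃ rs : List (Localization.AtPrime p),
            (∀ r ∈ rs, r ∈ IsLocalRing.maximalIdeal (Localization.AtPrime p)) ∧
            RingTheory.Sequence.IsRegular (Localization.AtPrime p) rs ∧
            (rs.length : WithBot ℕ∞) = ringKrullDim (Localization.AtPrime p)))) := by
  intro hall
  have h := hall ℚ 17 17 (Pool.Agent.Work.MP_7f7c16_ag.AA (-1))
    (Pool.Agent.Work.MP_7f7c16_ag.AA 4)
    (ne_zero_AA Pool.Agent.Work.MP_7f7c16_ag.chk1_a)
    (indep_AA Pool.Agent.Work.MP_7f7c16_ag.chk1_a)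
    (ne_zero_AA Pool.Agent.Work.MP_7f7c16_ag.chk1_b)
    (indep_AA Pool.Agent.Work.MP_7f7c16_ag.chk1_b)
    Pool.Agent.Work.MP_7f7c16_ag.lattices_iso
  change (∀ (p : Ideal (Pool.Agent.Work.MP_7f7c16_ag.R4 ⧸
    (Pool.Agent.Work.MP_7f7c16_ag.jac (Pool.Agent.Work.MP_7f7c16_ag.AA (-1))).radical))
    [p.IsPrime], ∃ rs : List (Localization.AtPrime p),
            (∀ r ∈ rs, r ∈ IsLocalRing.maximalIdeal (Localization.AtPrime p)) ∧
            RingTheory.Sequence.IsRegular (Localization.AtPrime p) rs ∧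
            (rs.length : WithBot ℕ∞) = ringKrullDim (Localization.AtPrime p)) ↔
    (∀ (p : Ideal (Pool.Agent.Work.MP_7f7c16_ag.R4 ⧸
    (Pool.Agent.Work.MP_7f7c16_ag.jac (Pool.Agent.Work.MP_7f7c16_ag.AA 4)).radical))
    [p.IsPrime], ∃ rs : List (Localization.AtPrime p),
            (∀ r ∈ rs, r ∈ IsLocalRing.maximalIdeal (Localization.AtPrime p)) ∧
            RingTheory.Sequence.IsRegular (Localization.AtPrime p) rs ∧
            (rs.length : WithBot ℕ∞) = ringKrullDim (Localization.AtPrime p)) at h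
  rw [rad_AA Pool.Agent.Work.MP_7f7c16_ag.good_a Pool.Agent.Work.MP_7f7c16_ag.chk1_a,
    rad_AA Pool.Agent.Work.MP_7f7c16_ag.good_b Pool.Agent.Work.MP_7f7c16_ag.chk1_b] at h
  let _inst : Algebra Pool.Agent.Work.MP_7f7c16_ag.S2 Pool.Agent.Work.MP_7f7c16_ag.R4 :=
    (Pool.Agent.Work.MP_7f7c16_ag.phi
      (Pool.Agent.Work.MP_7f7c16_ag.vec Pool.Agent.Work.MP_7f7c16_ag.sg)
      (Pool.Agent.Work.MP_7f7c16_ag.vec Pool.Agent.Work.MP_7f7c16_ag.ta)).toRingHom.toAlgebra
  have hs : algebraMap Pool.Agent.Work.MP_7f7c16_ag.S2 Pool.Agent.Work.MP_7f7c16_ag.R4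
    = (Pool.Agent.Work.MP_7f7c16_ag.phi
      (Pool.Agent.Work.MP_7f7c16_ag.vec Pool.Agent.Work.MP_7f7c16_ag.sg)
      (Pool.Agent.Work.MP_7f7c16_ag.vec Pool.Agent.Work.MP_7f7c16_ag.ta)).toRingHom := rfl
  have hff := Pool.Agent.Work.MP_7f7c16_ag.chain_ff Pool.Agent.Work.MP_7f7c16_ag.good_a
    (S := Pool.Agent.Work.MP_7f7c16_ag.S2)
    (fun a b hab hb => Pool.Agent.Work.MP_7f7c16_ag.PI_ff hs
      (Pool.Agent.Work.MP_7f7c16_ag.det_ne
        (Pool.Agent.Work.MP_7f7c16_ag.chk1_spec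
          Pool.Agent.Work.MP_7f7c16_ag.chk1_a hab hb)))
    (Pool.Agent.Work.MP_7f7c16_ag.base_ff hs) 17 (by norm_num) le_rfl
  have hnd := Pool.Agent.Work.MP_7f7c16_ag.chain_nd Pool.Agent.Work.MP_7f7c16_ag.good_b
    Pool.Agent.Work.MP_7f7c16_ag.base_nd 17 (by norm_num) le_rfl
  obtain ⟨hfree, hfin⟩ := hff
  have hcm1 := h.1 (fun p hp => by
    exact Pool.Agent.Work.MP_7f7c16_ag.cm_of_finite_free p)
  refine Pool.Agent.Work.MP_7f7c16_ag.not_cm_of_nd
    (Pool.Agent.Work.MP_7f7c16_ag.det_ne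
      (Pool.Agent.Work.MP_7f7c16_ag.chk1_spec
        Pool.Agent.Work.MP_7f7c16_ag.chk1_b (a := 0) (b := 3) (by norm_num) (by norm_num)))
    ?_ hnd hcm1
  intro f hf
  exact Pool.Agent.Work.MP_7f7c16_ag.mem_JE.1 hf (0, 3)
    (Pool.Agent.Work.MP_7f7c16_ag.mem_EE.2 (Or.inl (by decide)))

end Pool.Agent.S00272
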