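import Pool.Statements.S00684

set_option autoImplicit false
open Pool Pool.MP_0b625c_al

namespace Pool.Agent.S00684

open Filter Topology Uniformity

/-- The circle is infinite. -/
theorem infinite_circle : Infinite Circle := by
  have h : Function.Injective (fun t : Set.Ioc (-Real.pi) Real.pi => Circle.exp t.1) := by
    intro s t hst
    have h1 := congrArg (fun z : Circle => Complex.arg z) hst
    simp only at h1
    rw [Circle.arg_exp s.2.1 s.2.2, Circle.arg_exp t.2.1 t.2.2] at h1
    exact Subtype.ext h1
  have hinf : Infinite (Set.Ioc (-Real.pi) Real.pi) :=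
    (Set.Ioc_infinite (by linarith [Real.pi_pos])).to_subtype
  exact Infinite.of_injective _ h

/-- The indices outside a given sequence of points of the circle. -/
abbrev Rest (e : ℕ → Circle) : Type := {q : Circle // q ∉ Set.range e}

/-- The target group: on the points of the sequence `e` the topology of pointwise convergence,
elsewhere the topology of uniform convergence. -/
abbrev Target (e : ℕ → Circle) : Type := (ℕ → Circle) × (UniformFun (Rest e) Circle)

/-- The map from the group of all functions to the target. -/
def U (e : ℕ → Circle) : (Circle → Circle) →* Target e where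
  toFun x := (fun n => x (e n), UniformFun.ofFun (fun q : Rest e => x q.1))
  map_one' := rfl
  map_mul' _ _ := rfl

/-- The same map on the space of functions with the topology of uniform convergence. -/
def V (e : ℕ → Circle) (x : UniformFun Circle Circle) : Target e :=
  (fun n => UniformFun.toFun x (e n),
    UniformFun.ofFun (UniformFun.toFun x ∘ (Subtype.val : Rest e → Circle)))

theorem uniformContinuous_V (e : ℕ → Circle) : UniformContinuous (V e) := by
  refine UniformContinuous.prodMk ?_ ?_
  · rw [uniformContinuous_pi]
    intro n
    exact UniformFun.uniformContinuous_eval Circle (e n)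
  · exact UniformFun.precomp_uniformContinuous

/-- The uniformity of uniform convergence of circle-valued functions is countably generated. -/
theorem countablyGenerated_unif (α : Type) : (𝓤 (UniformFun α Circle)).IsCountablyGenerated := by
  have h0 : (𝓤 Circle).IsCountablyGenerated :=
    (inferInstance : (@uniformity Circle PseudoMetricSpace.toUniformSpace).IsCountablyGenerated)
  obtain ⟨s, hs⟩ := (𝓤 Circle).exists_antitone_basis
  exact (UniformFun.hasBasis_uniformity_of_basis α Circle hs.toHasBasis).isCountablyGenerated

theorem completeSpace_circle : @CompleteSpace Circle Circle.instUniformSpace :=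
  (inferInstance : @CompleteSpace Circle PseudoMetricSpace.toUniformSpace)

theorem bijective_U (e : ℕ → Circle) (he : Function.Injective e) : Function.Bijective (U e) := by
  classical
  constructor
  · intro x y hxy
    have h1 := congrArg Prod.fst hxy
    have h2 := congrArg Prod.snd hxy
    funext q
    by_cases hq : q ∈ Set.range e
    · obtain ⟨n, rfl⟩ := hq
      exact congrFun h1 n
    · exact congrFun (congrArg UniformFun.toFun h2) ⟨q, hq⟩
  · rintro ⟨k, y⟩
    refine ⟨fun q => if h : ∃ n, e n = q then k h.choose else UniformFun.toFun y ⟨q, h⟩, ?_⟩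
    refine Prod.ext ?_ ?_
    · funext n
      have hn : ∃ m, e m = e n := ⟨n, rfl⟩
      have h2 : hn.choose = n := he hn.choose_spec
      change (if h : ∃ m, e m = e n then k h.choose else UniformFun.toFun y ⟨e n, h⟩) = k n
      rw [dif_pos hn, h2]
    · apply UniformFun.toFun.injective
      funext q
      have hq : ¬ ∃ n, e n = q.1 := q.2
      change (if h : ∃ m, e m = q.1 then k h.choose else UniformFun.toFun y ⟨q.1, h⟩) =
        UniformFun.toFun y q
      rw [dif_neg hq]

/-- The negation of the preceding statement: Take the group of all unit-circle-valued maps on the unit circle, with pointwise product and sup metric. Every continuous bijective homomorphism from it onto a complete metric topological group has a continuous inverse. -/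
theorem result :
    ¬ (∀ (E₁ : Type) [Group E₁] [MetricSpace E₁] [CompleteSpace E₁] [IsTopologicalGroup E₁]
      (U : (Circle → Circle) →* E₁),
      Function.Bijective U →
      (∀ x : Circle → Circle, ∀ ε > (0 : ℝ), ∃ δ > (0 : ℝ), ∀ y : Circle → Circle,
          (∀ q : Circle, dist (x q) (y q) ≤ δ) → dist (U x) (U y) < ε) →
      (∀ x : Circle → Circle, ∀ ε > (0 : ℝ), ∃ δ > (0 : ℝ), ∀ y : Circle → Circle,
          dist (U x) (U y) < δ → ∀ q : Circle, dist (x q) (y q) ≤ ε)) := by
  intro H
  have h0 := infinite_circle
  let e : ℕ ↪ Circle := Infinite.natEmbedding Circle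
  have h1 : (𝓤 Circle).IsCountablyGenerated :=
    (inferInstance : (@uniformity Circle PseudoMetricSpace.toUniformSpace).IsCountablyGenerated)
  have h2 := countablyGenerated_unif (Rest e)
  have h3 := completeSpace_circle
  have h4 : CompleteSpace (Target e) := inferInstance
  have h5 : IsTopologicalGroup (Target e) := inferInstance
  let mE : MetricSpace (Target e) := UniformSpace.metricSpace (Target e)
  have hcont : ∀ x : Circle → Circle, ∀ ε > (0 : ℝ), ∃ δ > (0 : ℝ), ∀ y : Circle → Circle,
      (∀ q : Circle, dist (x q) (y q) ≤ δ) → dist (U e x) (U e y) < ε := by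
    intro x ε hε
    have h1 := uniformContinuous_V e (Metric.dist_mem_uniformity hε)
    have hbas : (𝓤 Circle).HasBasis ((0 : ℝ) < ·)
        fun ε => { p : Circle × Circle | dist p.1 p.2 ≤ ε } := Metric.uniformity_basis_dist_le
    rw [Filter.mem_map, (UniformFun.hasBasis_uniformity_of_basis Circle Circle hbas).mem_iff] at h1
    obtain ⟨δ, hδ, hsub⟩ := h1
    refine ⟨δ, hδ, fun y hy => ?_⟩
    exact hsub (a := (UniformFun.ofFun x, UniformFun.ofFun y)) hy
  obtain ⟨δ, hδ, hinv⟩ := H (Target e) (U e) (bijective_U e e.injective) hcont 1 1 one_pos
  classical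
  let y : ℕ → Circle → Circle := fun n q => if q = e n then -1 else 1
  have hlim : Tendsto (fun n => U e (y n)) atTop (𝓝 (U e 1)) := by
    refine Tendsto.prodMk_nhds ?_ ?_
    · rw [tendsto_pi_nhds]
      intro m
      refine tendsto_const_nhds.congr' ?_
      filter_upwards [eventually_gt_atTop m] with n hn
      have hne : e m ≠ e n := fun h => by
        have := e.injective h
        omega
      simp [y, hne]
    · refine tendsto_const_nhds.congr' (Eventually.of_forall fun n => ?_)
      apply UniformFun.toFun.injective
      funext q
      have hne : q.1 ≠ e n := fun h => q.2 ⟨n, h.symm⟩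
      simp [y, hne]
  have hev := hlim.eventually (Metric.ball_mem_nhds (U e 1) hδ)
  obtain ⟨n, hn⟩ := hev.exists
  have hn' : dist (U e 1) (U e (y n)) < δ := by
    rw [dist_comm]; exact hn
  have h2 := hinv (y n) hn' (e n)
  simp only [y, Pi.one_apply, if_true] at h2
  have h3 : dist (1 : Circle) (-1) = 2 := by
    change dist ((1 : Circle) : ℂ) ((-1 : Circle) : ℂ) = 2
    rw [Circle.coe_neg, Circle.coe_one, Complex.dist_eq]
    norm_num
  rw [h3] at h2
  norm_num at h2

end Pool.Agent.S00684
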