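import Pool.Statements.S01395
import Pool.Agent.Work.MP_4c212b_al.Main

set_option autoImplicit false
open Pool Pool.MP_4c212b_al

namespace Pool.Agent.S01395

/-- There are a linear f(l)=al+b and a function g such that, for a finite soluble G with a coprime soluble automorphism group A (∣A∣ with l prime factors, C_G(A) of rank at most r), G modulo F_{f(l)}(G) has rank at most g(∣A∣,r). -/
theorem result :
  ∃ a b : ℕ, ∃ g : ℕ → ℕ → ℕ,
    ∀ (G : Type) [Group G], Finite G → IsSolvable G → ∀ (A : Subgroup (MulAut G)),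
      IsSolvable (↥A) → Nat.Coprime (Nat.card (↥A)) (Nat.card G) →
      ∀ l r : ℕ, (Nat.card (↥A)).primeFactorsList.length = l →
      (∀ H : Subgroup G, (∀ h : G, h ∈ H → ∀ σ : MulAut G, σ ∈ A → σ h = h) →
        ∃ S : Finset G, S.card ≤ r ∧ Subgroup.closure (↑S : Set G) = H) →
      ∃ N : Subgroup G, N.Normal ∧
        (∃ s : ℕ → Subgroup G, s 0 = ⊥ ∧ s (a * l + b) = N ∧
          ∀ i : ℕ, i < a * l + b → (s i).Normal ∧ s i ≤ s (i + 1) ∧
            ∃ m : ℕ, ∀ t : ℕ → Subgroup G, t 0 = s (i + 1) →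
              (∀ j : ℕ, t (j + 1) = ⁅t j, s (i + 1)⁆) → t m ≤ s i) ∧
        ∀ H : Subgroup G, N ≤ H →
          ∃ S : Finset G, S.card ≤ g (Nat.card (↥A)) r ∧
            Subgroup.closure (↑S : Set G) ⊔ N = H := by
  exact Pool.FH.main_FIN

end Pool.Agent.S01395
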