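import Pool.Statements.S01517
import Pool.Agent.Work.MP_55ae8f_al.Main

set_option autoImplicit false
open Pool Pool.MP_55ae8f_al

namespace Pool.Agent.S01517

/-- There is a finite group with a family of nontrivial proper subgroups, all of the same order, such that each non-identity element lies in exactly one of them, and at least one of these subgroups is non-abelian. -/
theorem result :
    ∃ (G : Type) (_ : Group G) (_ : Finite G) (P : Finset (Subgroup G)),
      (∀ H ∈ P, H ≠ ⊥ ∧ H ≠ ⊤) ∧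
      (∀ g : G, g ≠ 1 → ∃! H : Subgroup G, H ∈ P ∧ g ∈ H) ∧
      (∀ H ∈ P, ∀ K ∈ P, Nat.card H = Nat.card K) ∧
      (∃ H ∈ P, ∃ x ∈ H, ∃ y ∈ H, x * y ≠ y * x) := by
  refine ⟨Work.MP_55ae8f_al.G, inferInstance, inferInstance, Work.MP_55ae8f_al.P,
    ?_, Work.MP_55ae8f_al.exists_unique, ?_, ?_⟩
  · intro H hH
    have h := Work.MP_55ae8f_al.card_of_mem_P hH
    constructor
    · rintro rfl
      rw [Subgroup.card_bot] at h
      exact absurd h (by norm_num)
    · rintro rfl
      rw [Subgroup.card_top, Work.MP_55ae8f_al.card_G] at h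
      exact absurd h (by norm_num)
  · intro H hH K hK
    rw [Work.MP_55ae8f_al.card_of_mem_P hH, Work.MP_55ae8f_al.card_of_mem_P hK]
  · refine ⟨Work.MP_55ae8f_al.H0, Work.MP_55ae8f_al.mem_P.mpr (Or.inl rfl),
      ⟨0, 1, 0, 0⟩, rfl, ⟨0, 0, 1, 0⟩, rfl, ?_⟩
    intro h
    have h1 := congrArg Work.MP_55ae8f_al.G.z h
    simp only [Work.MP_55ae8f_al.mul_z, Work.MP_55ae8f_al.om] at h1
    revert h1
    simp
    decide

end Pool.Agent.S01517
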