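import Pool.Statements.S01727
import Pool.Agent.Work.MP_64ea0f_cs_helper91.AllZ

set_option autoImplicit false
open Pool Pool.MP_64ea0f_al

namespace Pool.Agent.S01727

/-- For every Coxeter group of finite rank, any two non-conjugate elements have images that are non-conjugate under some homomorphism to a finite group, i.e. every finitely generated Coxeter group is conjugacy separable. -/
theorem result :
    ∀ (B : Type) [Finite B] (M : CoxeterMatrix B) (g h : M.Group),
      ¬ IsConj g h →
        ∃ (F : Type) (_ : Group F) (_ : Finite F) (φ : M.Group →* F),
          ¬ IsConj (φ g) (φ h) := by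
  intro B _ M g h hgh
  exact Pool.CS.Y.fin B M g h hgh

end Pool.Agent.S01727
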