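import Pool.Statements.S02454
import Pool.Agent.Work.MP_9b0338_al.Main

set_option autoImplicit false
open Pool Pool.MP_9b0338_al

namespace Pool.Agent.S02454

/-- The negation of the preceding statement: For every finitely presented group and any two finite generating sets, the Cayley graph has bounded retreat depth (a uniform D such that each g escapes arbitrarily far without dropping below word length ∣g∣−D) for one set iff for the other. -/
theorem result :
    ¬ (∀ (G : Type) [Group G],
      (∃ n : ℕ, ∃ f : FreeGroup (Fin n) →* G, Function.Surjective f ∧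
        ∃ r : Finset (FreeGroup (Fin n)), f.ker = Subgroup.normalClosure (r : Set (FreeGroup (Fin n)))) →
      ∀ S T : Finset G,
        Subgroup.closure (S : Set G) = ⊤ →
        Subgroup.closure (T : Set G) = ⊤ →
        ((∃ D : ℕ, ∀ g : G, ∀ R : ℕ, ∃ h : G,
            R ≤ (SimpleGraph.fromRel (fun a b : G => a⁻¹ * b ∈ S)).dist 1 h ∧
            ∃ p : (SimpleGraph.fromRel (fun a b : G => a⁻¹ * b ∈ S)).Walk g h,
              ∀ v ∈ p.support,
                (SimpleGraph.fromRel (fun a b : G => a⁻¹ * b ∈ S)).dist 1 g ≤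
                  (SimpleGraph.fromRel (fun a b : G => a⁻¹ * b ∈ S)).dist 1 v + D) ↔
         (∃ D : ℕ, ∀ g : G, ∀ R : ℕ, ∃ h : G,
            R ≤ (SimpleGraph.fromRel (fun a b : G => a⁻¹ * b ∈ T)).dist 1 h ∧
            ∃ p : (SimpleGraph.fromRel (fun a b : G => a⁻¹ * b ∈ T)).Walk g h,
              ∀ v ∈ p.support,
                (SimpleGraph.fromRel (fun a b : G => a⁻¹ * b ∈ T)).dist 1 g ≤
                  (SimpleGraph.fromRel (fun a b : G => a⁻¹ * b ∈ T)).dist 1 v + D))) := by
  intro H
  open Pool.Agent.MP_9b0338_al in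
  classical
  obtain ⟨n, φ, hφ, r, hr, hker⟩ := fp_square.out
  have hS := gens_symm frame_gam
  have hfin := gens_finite ga gt gs
  have hT1 := perp_finite hfin
  have hT2 := vee_finite hfin
  have key := H (Gam × Gam) ⟨n, φ, hφ, hr.toFinset, by rw [hr.coe_toFinset]; exact hker.symm⟩
    hT2.toFinset hT1.toFinset
    (by rw [hT2.coe_toFinset]; exact vee_gen gens_gen)
    (by rw [hT1.coe_toFinset]; exact perp_gen gens_gen)
  have e1 : (SimpleGraph.fromRel (fun a b : Gam × Gam => a⁻¹ * b ∈ hT1.toFinset)) =
      Cay (perp (gens ga gt gs)) := by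
    unfold Cay
    congr 1
    funext a b
    rw [Set.Finite.mem_toFinset]
  have e2 : (SimpleGraph.fromRel (fun a b : Gam × Gam => a⁻¹ * b ∈ hT2.toFinset)) =
      Cay (vee (gens ga gt gs)) := by
    unfold Cay
    congr 1
    funext a b
    rw [Set.Finite.mem_toFinset]
  rw [e1, e2] at key
  have hbr : BR (vee (gens ga gt gs)) := BR_vee hS gens_gen unbounded
  exact not_BR_perp hS gens_gen pockets (key.1 hbr)

end Pool.Agent.S02454
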