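import Pool.Statements.S02649
import Pool.Agent.Work.TSQ.Main
-- import your own Pool.Agent.* helpers here

set_option autoImplicit false
open Pool Pool.MP_ab148e_al

namespace Pool.Agent.S02649

/-- There is a group G and a number n such that G×G has a paradoxical decomposition (disjoint pieces whose left translates cover it twice) with at most n pieces, while G has none with at most n pieces; i.e. Tarski number of G×G is less than that of G. -/
theorem result :
    ∃ (G : Type) (_ : Group G) (n : ℕ),
      (∃ (k l : ℕ) (A : Fin k → Set (G × G)) (B : Fin l → Set (G × G))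
          (g : Fin k → G × G) (h : Fin l → G × G),
        k + l ≤ n ∧
        Pairwise (fun i j => Disjoint (A i) (A j)) ∧
        Pairwise (fun i j => Disjoint (B i) (B j)) ∧
        (∀ i j, Disjoint (A i) (B j)) ∧
        (⋃ i, (fun x => g i * x) '' A i) = Set.univ ∧
        (⋃ j, (fun x => h j * x) '' B j) = Set.univ) ∧
      ¬ (∃ (k l : ℕ) (A : Fin k → Set G) (B : Fin l → Set G)
          (g : Fin k → G) (h : Fin l → G),
        k + l ≤ n ∧
        Pairwise (fun i j => Disjoint (A i) (A j)) ∧
        Pairwise (fun i j => Disjoint (B i) (B j)) ∧
        (∀ i j, Disjoint (A i) (B j)) ∧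
        (⋃ i, (fun x => g i * x) '' A i) = Set.univ ∧
        (⋃ j, (fun x => h j * x) '' B j) = Set.univ) := by
  exact TSq.main

end Pool.Agent.S02649
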