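import Pool.Statements.S02731
import Pool.Agent.Work.MP_b103ef_pos.Main

set_option autoImplicit false
open Pool Pool.MP_b103ef_al

namespace Pool.Agent.S02731

/-- Every lattice that embeds in a power of the 5-element nonmodular lattice has a congruence lattice order-isomorphic to that of some modular lattice (equivalently, its compact-congruence semilattice also comes from a modular lattice). -/
theorem result :
    ∀ (L : Type) [Lattice L],
      (∃ (N : Type) (_ : Lattice N), Nat.card N = 5 ∧ ¬ IsModularLattice N ∧
        ∃ (I : Type) (f : LatticeHom L (I → N)), Function.Injective f) →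
      ∃ (K : Type) (_ : Lattice K), IsModularLattice K ∧
        Nonempty
          ({r : L → L → Prop // Equivalence r ∧
              ∀ a b c d : L, r a b → r c d → r (a ⊔ c) (b ⊔ d) ∧ r (a ⊓ c) (b ⊓ d)} ≃o
           {r : K → K → Prop // Equivalence r ∧
              ∀ a b c d : K, r a b → r c d → r (a ⊔ c) (b ⊔ d) ∧ r (a ⊓ c) (b ⊓ d)}) := by
  intro L _ h
  exact Pool.NF.all_MAIN L h

end Pool.Agent.S02731
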