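import Pool.Statements.S02759
import Pool.Agent.Work.MP_b2cdcf_full.FinalB

set_option autoImplicit false
open Pool Pool.MP_b2cdcf_al

namespace Pool.Agent.S02759

/-- For every field k and n ≥ 3, the group of k-algebra automorphisms of k[x1..xn] is not virtually cyclic and acts isometrically, acylindrically and with an unbounded orbit on some geodesic Gromov-hyperbolic metric space. -/
theorem result :
    ∀ (k : Type) [Field k] (n : ℕ), 3 ≤ n →
      (¬ ∃ H : Subgroup (MvPolynomial (Fin n) k ≃ₐ[k] MvPolynomial (Fin n) k),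
          IsCyclic H ∧ H.FiniteIndex) ∧
      ∃ (X : Type) (_ : MetricSpace X)
        (act : (MvPolynomial (Fin n) k ≃ₐ[k] MvPolynomial (Fin n) k) → X → X),
        (∀ x : X, act 1 x = x) ∧
        (∀ g h x, act (g * h) x = act g (act h x)) ∧
        (∀ g, Isometry (act g)) ∧
        (∀ x y : X, ∃ γ : ℝ → X, γ 0 = x ∧ γ (dist x y) = y ∧
          ∀ s t : ℝ, 0 ≤ s → s ≤ dist x y → 0 ≤ t → t ≤ dist x y →
            dist (γ s) (γ t) = |s - t|) ∧
        (∃ δ : ℝ, 0 ≤ δ ∧ ∀ x y z w : X,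
          min ((dist x w + dist y w - dist x y) / 2) ((dist y w + dist z w - dist y z) / 2) - δ
            ≤ (dist x w + dist z w - dist x z) / 2) ∧
        (∀ ε : ℝ, 0 < ε → ∃ (R : ℝ) (N : ℕ), ∀ x y : X, R ≤ dist x y →
          {g | dist x (act g x) ≤ ε ∧ dist y (act g y) ≤ ε}.Finite ∧
          {g | dist x (act g x) ≤ ε ∧ dist y (act g y) ≤ ε}.ncard ≤ N) ∧
        (∃ x : X, ∀ C : ℝ, ∃ g, C < dist x (act g x)) := by
  intro k _ n hn
  exact Pool.Agent.Work.MP_b2cdcf_full.final k n hn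

end Pool.Agent.S02759
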