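import Pool.Statements.S02917
import Pool.Agent.Work.MP_bde882_al_red.Homog
import Pool.Agent.Work.MP_bde882_al_red.DerAll
import Pool.Agent.Work.MP_bde882_al_tc.Fin
import Pool.Agent.Work.MP_bde882_al_h62.LeavesHH

set_option autoImplicit false
open Pool Pool.MP_bde882_al

namespace Pool.Agent.S02917

open Pool.Agent.Work.MP_bde882_al.Fin8 in
/-- There exist a prime p and a finite p-group G such that the subgroup generated by all elements of order not equal to p is non-trivial and has index exactly p^3 in G. -/
theorem result :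
    ∃ (p : ℕ) (G : Type) (_ : Group G) (_ : Finite G),
      p.Prime ∧ IsPGroup p G ∧
      Subgroup.closure {x : G | orderOf x ≠ p} ≠ ⊥ ∧
      (Subgroup.closure {x : G | orderOf x ≠ p}).index = p ^ 3 := by
  exact goal_of_HM' _ HH_d0_pos HH_d2 gramSymm_HH derZero_HH
    Pool.Agent.Work.MP_bde882_al.J62.bigCheckC_HH
    Pool.Agent.Work.MP_bde882_al.TC.long_HH.1 Pool.Agent.Work.MP_bde882_al.TC.long_HH.2.1
    Pool.Agent.Work.MP_bde882_al.TC.long_HH.2.2

end Pool.Agent.S02917

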