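-- The negative answer: there are finite groups with isomorphic subgroup lattices of the cubes
-- which are not term equivalent.
import Pool.Statements.S03158
import Pool.Agent.Work.MP_d2f6cf_al.Main

set_option autoImplicit false
open Pool Pool.MP_d2f6cf_al

namespace Pool.Agent.S03158

/-- The negation of the preceding statement: For finite groups G, H with isomorphic subgroup lattices of G^3 and H^3, there is a bijection G to H under which each group's multiplication, transported to the other's set, is a two-variable word map of the other group. -/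
theorem result :
    ¬ (∀ (G H : Type) [Group G] [Group H] [Finite G] [Finite H],
      Nonempty (Subgroup (G × G × G) ≃o Subgroup (H × H × H)) →
      ∃ f : G ≃ H,
        (∃ w : FreeGroup (Fin 2), ∀ x y : G,
            f.symm (f x * f y) = FreeGroup.lift ![x, y] w) ∧
        (∃ w : FreeGroup (Fin 2), ∀ x y : H,
            f (f.symm x * f.symm y) = FreeGroup.lift ![x, y] w)) := by
  intro h
  obtain ⟨f, ⟨w, hw⟩, ⟨w', hw'⟩⟩ := h (Pool.Agent.Work.MP_d2f6cf_al.GG 1)
    (Pool.Agent.Work.MP_d2f6cf_al.GG 4) Pool.Agent.Work.MP_d2f6cf_al.lattice_iso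
  exact Pool.Agent.Work.MP_d2f6cf_al.not_termEquiv ⟨f, w, hw⟩ ⟨f.symm, w', hw'⟩
    (fun x => f.symm_apply_apply x) (fun x => f.apply_symm_apply x)

end Pool.Agent.S03158
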