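import Pool.Statements.S03710
-- import your own Pool.Agent.* helpers here
import Pool.Agent.Work.MP_052a41_ce.Final

set_option autoImplicit false
open Pool Pool.MP_052a41_an

namespace Pool.Agent.S03710

/-- The negation of the preceding statement: For every compact metric space K, every complemented subspace X of the real space C(K) that contains a closed infinite-dimensional reflexive subspace is linearly homeomorphic (isomorphic) to C[0,1]. -/
theorem result :
    ¬ (∀ (K : Type) [MetricSpace K] [CompactSpace K] (X : Submodule ℝ C(K, ℝ)),
      X.ClosedComplemented →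
      (∃ Y : Submodule ℝ C(K, ℝ), Y ≤ X ∧ IsClosed (Y : Set C(K, ℝ)) ∧
        ¬ FiniteDimensional ℝ Y ∧
        Function.Surjective (NormedSpace.inclusionInDoubleDual ℝ Y)) →
      Nonempty (X ≃L[ℝ] C(Set.Icc (0 : ℝ) 1, ℝ))) :=
  Pool.CE.final_F1

end Pool.Agent.S03710
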