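import Pool.Statements.S03900
import Pool.Agent.Work.MP_156639_an_helper43.Asm

set_option autoImplicit false
open Pool Pool.MP_156639_an

namespace Pool.Agent.S03900

/-- The negation of the preceding statement: For every real Banach space X in which each separable subspace lies in a separable complemented subspace, every complemented subspace Y of X has the same property. -/
theorem result :
    ¬ (∀ (X : Type) [NormedAddCommGroup X] [NormedSpace ℝ X] [CompleteSpace X],
      (∀ S : Submodule ℝ X, TopologicalSpace.IsSeparable (S : Set X) →
        ∃ T : Submodule ℝ X, S ≤ T ∧ TopologicalSpace.IsSeparable (T : Set X) ∧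
          T.ClosedComplemented) →
      ∀ Y : Submodule ℝ X, Y.ClosedComplemented →
        ∀ S : Submodule ℝ Y, TopologicalSpace.IsSeparable (S : Set Y) →
          ∃ T : Submodule ℝ Y, S ≤ T ∧ TopologicalSpace.IsSeparable (T : Set Y) ∧
            T.ClosedComplemented) :=
  Pool.Agent.MP156639.final

end Pool.Agent.S03900
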