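import Pool.Statements.S04536

set_option autoImplicit false
open Pool Pool.MP_45d43b_an

namespace Pool.Agent.S04536

open Filter Topology

/-- The tent function `t ↦ 1/2 - |t - 1/2|`. -/
noncomputable def tent (t : ℝ) : ℝ := 1 / 2 - |t - 1 / 2|

lemma tent_lip (s t : ℝ) : |tent s - tent t| ≤ |s - t| := by
  have h : tent s - tent t = |t - 1 / 2| - |s - 1 / 2| := by unfold tent; ring
  rw [h]
  have h2 := abs_abs_sub_abs_le_abs_sub (t - 1 / 2) (s - 1 / 2)
  have h3 : t - 1 / 2 - (s - 1 / 2) = -(s - t) := by ring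
  rw [h3, abs_neg] at h2
  exact h2

/-- The sequence underlying the map `x ↦ (1 - x₀, tent x₀, x₁, x₂, …)`. -/
noncomputable def stepFun (x : ℕ → ℝ) : ℕ → ℝ
  | 0 => 1 - x 0
  | 1 => tent (x 0)
  | (n + 2) => x (n + 1)

lemma tendsto_coc (f : ℕ → ℝ) :
    Tendsto f (cocompact ℕ) (𝓝 0) ↔ Tendsto f atTop (𝓝 0) := by
  rw [cocompact_eq_cofinite, Nat.cofinite_eq_atTop]

/-- The nonexpansive map `x ↦ (1 - x₀, tent x₀, x₁, x₂, …)` of `c₀`. -/
noncomputable def step (x : ZeroAtInftyContinuousMap ℕ ℝ) : ZeroAtInftyContinuousMap ℕ ℝ where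
  toFun := stepFun x
  continuous_toFun := continuous_of_discreteTopology
  zero_at_infty' := by
    rw [tendsto_coc]
    have h := (tendsto_coc x).1 x.zero_at_infty'
    rw [← tendsto_add_atTop_iff_nat 2]
    exact (tendsto_add_atTop_iff_nat 1).2 h

lemma step_zero (x : ZeroAtInftyContinuousMap ℕ ℝ) : step x 0 = 1 - x 0 := rfl
lemma step_one (x : ZeroAtInftyContinuousMap ℕ ℝ) : step x 1 = tent (x 0) := rfl
lemma step_succ (x : ZeroAtInftyContinuousMap ℕ ℝ) (n : ℕ) : step x (n + 2) = x (n + 1) := rfl

lemma dist_coord (x y : ZeroAtInftyContinuousMap ℕ ℝ) (n : ℕ) : |x n - y n| ≤ dist x y := by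
  have := BoundedContinuousFunction.dist_coe_le_dist (f := x.toBCF) (g := y.toBCF) n
  rw [ZeroAtInftyContinuousMap.dist_toBCF_eq_dist] at this
  rw [← Real.dist_eq]
  exact this

lemma dist_step (x y : ZeroAtInftyContinuousMap ℕ ℝ) : dist (step x) (step y) ≤ dist x y := by
  rw [← ZeroAtInftyContinuousMap.dist_toBCF_eq_dist (f := step x)]
  rw [BoundedContinuousFunction.dist_le dist_nonneg]
  intro n
  rw [Real.dist_eq]
  match n with
  | 0 =>
    change |step x 0 - step y 0| ≤ _
    rw [step_zero, step_zero]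
    have h : 1 - x 0 - (1 - y 0) = -(x 0 - y 0) := by ring
    rw [h, abs_neg]
    exact dist_coord x y 0
  | 1 =>
    change |step x 1 - step y 1| ≤ _
    rw [step_one, step_one]
    exact (tent_lip _ _).trans (dist_coord x y 0)
  | (n + 2) =>
    change |step x (n + 2) - step y (n + 2)| ≤ _
    rw [step_succ, step_succ]
    exact dist_coord x y (n + 1)

lemma dist_iter (n : ℕ) (x y : ZeroAtInftyContinuousMap ℕ ℝ) :
    dist (step^[n] x) (step^[n] y) ≤ dist x y := by
  induction n generalizing x y with
  | zero => simp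
  | succ n ih =>
    rw [Function.iterate_succ_apply, Function.iterate_succ_apply]
    exact (ih _ _).trans (dist_step x y)

lemma no_fixed (x : ZeroAtInftyContinuousMap ℕ ℝ) (h : step x = x) : False := by
  have h0 : x 0 = 1 / 2 := by
    have := congrArg (fun z : ZeroAtInftyContinuousMap ℕ ℝ => z 0) h
    simp only [step_zero] at this
    linarith
  have h1 : x 1 = 1 / 2 := by
    have := congrArg (fun z : ZeroAtInftyContinuousMap ℕ ℝ => z 1) h
    simp only [step_one] at this
    rw [← this, h0]
    simp [tent]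
  have hn : ∀ n : ℕ, x (n + 1) = 1 / 2 := by
    intro n
    induction n with
    | zero => exact h1
    | succ n ih =>
      have := congrArg (fun z : ZeroAtInftyContinuousMap ℕ ℝ => z (n + 2)) h
      simp only [step_succ] at this
      rw [← ih, this]
  have ht := (tendsto_coc x).1 x.zero_at_infty'
  have ht1 : Tendsto (fun n : ℕ => x (n + 1)) atTop (𝓝 0) := (tendsto_add_atTop_iff_nat 1).2 ht
  have ht2 : Tendsto (fun _ : ℕ => (1 / 2 : ℝ)) atTop (𝓝 0) := by
    refine ht1.congr (fun n => hn n)
  have := tendsto_nhds_unique ht2 tendsto_const_nhds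
  norm_num at this

lemma step_step_zero : step (step 0) = 0 := by
  ext n
  match n with
  | 0 => rw [step_zero, step_zero]; simp
  | 1 =>
    rw [step_one, step_zero]
    simp [tent]
    norm_num
  | 2 =>
    rw [step_succ]
    change step 0 1 = 0
    rw [step_one]
    simp [tent]
  | (n + 3) =>
    rw [show n + 3 = (n + 1) + 2 from rfl, step_succ]
    rw [show n + 1 + 1 = n + 2 from rfl, step_succ]
    rfl

lemma iter_zero_mem (n : ℕ) : step^[n] 0 = 0 ∨ step^[n] 0 = step 0 := by
  induction n with
  | zero => left; rfl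
  | succ n ih =>
    rw [Function.iterate_succ_apply']
    rcases ih with ih | ih
    · right; rw [ih]
    · left; rw [ih]; exact step_step_zero

/-- The negation of the preceding statement: In real c_0, if a commutative semigroup acts on a nonempty closed convex set C by nonexpansive maps and some orbit is relatively weakly compact, then some point of C is fixed by every map. -/
theorem result :
    ¬ (∀ (S : Type) [CommSemigroup S] (C : Set (ZeroAtInftyContinuousMap ℕ ℝ))
      (T : S → ZeroAtInftyContinuousMap ℕ ℝ → ZeroAtInftyContinuousMap ℕ ℝ),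
      C.Nonempty → IsClosed C → Convex ℝ C →
      (∀ s, Set.MapsTo (T s) C C) →
      (∀ s, LipschitzOnWith 1 (T s) C) →
      (∀ s t, ∀ x ∈ C, T (s * t) x = T s (T t x)) →
      (∃ c ∈ C, IsCompact (closure
        (toWeakSpace ℝ (ZeroAtInftyContinuousMap ℕ ℝ) '' Set.range (fun s => T s c)))) →
      ∃ x ∈ C, ∀ s, T s x = x) := by
  intro H
  obtain ⟨x, -, hx⟩ := H (Multiplicative ℕ) Set.univ (fun s x => step^[Multiplicative.toAdd s] x)
    Set.univ_nonempty isClosed_univ convex_univ
    (fun _ => Set.mapsTo_univ _ _)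
    (fun s => by
      rw [lipschitzOnWith_univ]
      refine LipschitzWith.of_dist_le_mul (fun x y => ?_)
      simpa using dist_iter (Multiplicative.toAdd s) x y)
    (fun s t x _ => by
      change step^[Multiplicative.toAdd (s * t)] x = _
      rw [toAdd_mul, Function.iterate_add_apply])
    (by
      refine ⟨0, Set.mem_univ _, ?_⟩
      refine IsCompact.closure ?_
      refine Set.Finite.isCompact ?_
      refine Set.Finite.image _ ?_
      refine Set.Finite.subset (Set.toFinite {0, step 0}) ?_
      rintro _ ⟨s, rfl⟩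
      exact iter_zero_mem _)
  have h1 := hx (Multiplicative.ofAdd 1)
  exact no_fixed x h1

end Pool.Agent.S04536
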