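import Pool.Statements.S04664
import Pool.Agent.Work.MP_510402_an.Blocks
import Pool.Agent.Work.MP_510402_an_helper59.EUC

set_option autoImplicit false
open Pool Pool.MP_510402_an

namespace Pool.Agent.S04664

/-- The negation of the preceding statement: For a real Banach space X, suppose that for each ε>0 every n-dimensional subspace is eventually within Banach–Mazur distance ε·ln n of Euclidean n-space. Then every Banach space isometrically embedded in X has the approximation property. -/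
theorem result :
    ¬ (∀ (X : Type) [NormedAddCommGroup X] [NormedSpace ℝ X] [CompleteSpace X],
      (∀ ε : ℝ, 0 < ε → ∃ N : ℕ, ∀ n : ℕ, N ≤ n →
        ∀ E : Submodule ℝ X, Module.finrank ℝ E = n →
          ∃ T : E →ₗ[ℝ] EuclideanSpace ℝ (Fin n),
            ∀ x : E, ‖x‖ ≤ ‖T x‖ ∧ ‖T x‖ ≤ ε * Real.log (n : ℝ) * ‖x‖) →
      ∀ (Z : Type) [NormedAddCommGroup Z] [NormedSpace ℝ Z] [CompleteSpace Z],
        ∀ (_ι : Z →ₗᵢ[ℝ] X),
        ∀ K : Set Z, IsCompact K → ∀ δ : ℝ, 0 < δ →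
          ∃ T : Z →L[ℝ] Z, FiniteDimensional ℝ (LinearMap.range (T : Z →ₗ[ℝ] Z)) ∧
            ∀ x ∈ K, ‖T x - x‖ < δ) :=
  Pool.HAP.main Pool.HAP.all_Frames Pool.HAP.all_Norm Pool.HAP.stmt_Beta
    (Pool.HAP.stmt_Euc Pool.HAP.stmt_Gram Pool.HAP.stmt_Cara) Pool.HAP.stmt_XComplete
    Pool.HAP.stmt_XInt Pool.HAP.stmt_Emb Pool.HAP.all_APF Pool.HAP.stmt_Log

end Pool.Agent.S04664
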