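import Pool.Statements.S05244
import Pool.Agent.Work.MP_8329b3_an.Seq

set_option autoImplicit false
open Pool Pool.MP_8329b3_an

namespace Pool.Agent.S05244

/-- The negation of the preceding statement: For every infinite pointed metric space M, its Lipschitz-free space (given by its universal property) is linearly isomorphic, as a real Banach space, to the ℓ1-sum of countably many copies of itself. -/
theorem result :
    ¬ (∀ (M : Type) [MetricSpace M] [Infinite M] (x0 : M)
      (X : Type) [NormedAddCommGroup X] [NormedSpace ℝ X] [CompleteSpace X]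
      (δ : M → X),
      δ x0 = 0 →
      LipschitzWith 1 δ →
      Dense ((Submodule.span ℝ (Set.range δ) : Submodule ℝ X) : Set X) →
      (∀ (f : M → ℝ) (L : NNReal), LipschitzWith L f → f x0 = 0 →
        ∃ φ : X →L[ℝ] ℝ, ‖φ‖ ≤ (L : ℝ) ∧ ∀ x : M, φ (δ x) = f x) →
      Nonempty (X ≃L[ℝ] lp (fun _ : ℕ => X) 1)) := by
  intro h
  obtain ⟨G, hG, hcov, hD⟩ := Work.MP_8329b3_an.exists_seq
  haveI : ∀ n, CompleteSpace (Work.MP_8329b3_an.FS (G n)) := fun n => FiniteDimensional.complete ℝ _
  haveI := Work.MP_8329b3_an.SS_infinite G hG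
  refine Work.MP_8329b3_an.no_iso G hG hcov hD
    (h (Work.MP_8329b3_an.SS G hG) ⟨0, Work.MP_8329b3_an.zero_mem G hG⟩
      (Work.MP_8329b3_an.XX G) Subtype.val rfl (LipschitzWith.subtype_val _)
      (Work.MP_8329b3_an.SS_dense G hG) ?_)
  intro f L hf hf0
  exact Work.MP_8329b3_an.SS_ext G hG f L hf hf0

end Pool.Agent.S05244
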