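import Pool.Statements.S05396
import Pool.Agent.Work.MP_9159b8_an.Final

set_option autoImplicit false
open MeasureTheory
open scoped MeasureTheory
open Pool Pool.MP_9159b8_an

namespace Pool.Agent.S05396

/-- The negation of the preceding statement: Let Ω be a bounded domain bounded by finitely many disjoint rectifiable Jordan curves, with area mean of Re f equal to its arc-length boundary mean for every f holomorphic inside and continuous up to the boundary. Then near each boundary point the boundary is a regular real-analytic arc. -/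
theorem result :
    ¬ (∀ (Ω : Set ℂ), IsOpen Ω → IsConnected Ω → Bornology.IsBounded Ω →
      (∃ (n : ℕ) (γ : Fin n → Circle → ℂ),
        (∀ i, Continuous (γ i)) ∧ (∀ i, Function.Injective (γ i)) ∧
        (∀ i j, i ≠ j → Disjoint (Set.range (γ i)) (Set.range (γ j))) ∧
        (∀ i, μH[1] (Set.range (γ i)) < ⊤) ∧
        frontier Ω = ⋃ i, Set.range (γ i)) →
      (∀ f : ℂ → ℂ, DifferentiableOn ℂ f Ω → ContinuousOn f (closure Ω) →
        (volume Ω).toReal⁻¹ * ∫ z in Ω, (f z).re =
          (μH[1] (frontier Ω)).toReal⁻¹ * ∫ z in frontier Ω, (f z).re ∂μH[1]) →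
      ∀ p ∈ frontier Ω, ∃ U : Set ℂ, IsOpen U ∧ p ∈ U ∧
        ∃ (a b : ℝ) (g : ℝ → ℂ), a < b ∧ AnalyticOnNhd ℝ g (Set.Ioo a b) ∧
          Set.InjOn g (Set.Ioo a b) ∧ (∀ t ∈ Set.Ioo a b, deriv g t ≠ 0) ∧
          frontier Ω ∩ U = g '' Set.Ioo a b) :=
  Pool.Agent.Work.MP_9159b8_an.main_counterexample

end Pool.Agent.S05396
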