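import Pool.Statements.S05673
-- import your own Pool.Agent.* helpers here
import Pool.Agent.Work.MP_a3494b_an.Star
import Pool.Agent.Work.MP_a3494b_an.Duality

set_option autoImplicit false
open MeasureTheory
open Pool Pool.MP_a3494b_an

namespace Pool.Agent.S05673

open Pool.Agent.Work.MP_a3494b_an in
/-- Existence of a bounded function with the prescribed Fourier coefficients. -/
lemma exists_g : ∃ g : TT → ℂ, MemLp g ⊤ mu ∧
    ∀ n : ℕ, n ≠ 0 → ∫ x, (starRingEnd ℂ) (g x) * chi n x ∂mu = (cf n : ℂ) := by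
  have hchi2 : ∀ n, MemLp (chi n) 2 mu := fun n =>
    (memLp_top_of_bound (continuous_chi n).aestronglyMeasurable 1
      (Filter.Eventually.of_forall (fun x => (norm_chi n x).le))).mono_exponent le_top
  set v : ℕ → Lp ℂ 1 mu := fun i => inc ((hchi2 (i + 1)).toLp (chi (i + 1))) with hv
  have key : ∀ a : ℕ →₀ ℂ,
      ‖Finsupp.linearCombination ℂ (fun i : ℕ => (cf (i + 1) : ℂ)) a‖ ≤
      C1 * ‖Finsupp.linearCombination ℂ v a‖ := by
    intro a
    set s : Finset ℕ := a.support.map ⟨fun i => i + 1, Nat.succ_injective⟩ with hs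
    have hs0 : ∀ n ∈ s, n ≠ 0 := by
      intro n hn
      rw [hs, Finset.mem_map] at hn
      obtain ⟨i, _, rfl⟩ := hn
      exact Nat.succ_ne_zero i
    have h1 := star hs0 (fun n => a (n - 1))
    have h2 : ∑ n ∈ s, a (n - 1) * (cf n : ℂ) =
        Finsupp.linearCombination ℂ (fun i : ℕ => (cf (i + 1) : ℂ)) a := by
      rw [hs, Finset.sum_map, Finsupp.linearCombination_apply, Finsupp.sum]
      apply Finset.sum_congr rfl
      intro i _
      simp
    have h3 : ‖Finsupp.linearCombination ℂ v a‖ = ∫ x, ‖FF s (fun n => a (n - 1)) x‖ ∂mu := by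
      have e1 : (Finsupp.linearCombination ℂ v a : TT → ℂ) =ᵐ[mu]
          FF s (fun n => a (n - 1)) := by
        rw [Finsupp.linearCombination_apply, Finsupp.sum]
        have e2 : (∑ i ∈ a.support, a i • v i : Lp ℂ 1 mu) =
            inc (∑ i ∈ a.support, a i • (hchi2 (i + 1)).toLp (chi (i + 1))) := by
          rw [map_sum]
          apply Finset.sum_congr rfl
          intro i _
          rw [map_smul]
        rw [e2]
        refine (inc_coe _).trans ?_
        refine (Lp.coeFn_finsetSum _ _).trans ?_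
        have e3 : ∀ i : ℕ, (↑(a i • (hchi2 (i + 1)).toLp (chi (i + 1)) : Lp ℂ 2 mu) : TT → ℂ)
            =ᵐ[mu] fun x => a i * chi (i + 1) x := by
          intro i
          filter_upwards [Lp.coeFn_smul (a i) ((hchi2 (i + 1)).toLp (chi (i + 1))),
            (hchi2 (i + 1)).coeFn_toLp] with x hx1 hx2
          rw [hx1, Pi.smul_apply, hx2, smul_eq_mul]
        have e4 : ∀ᵐ x ∂mu, ∀ i : ℕ,
            (↑(a i • (hchi2 (i + 1)).toLp (chi (i + 1)) : Lp ℂ 2 mu) : TT → ℂ) x =
            a i * chi (i + 1) x := by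
          rw [ae_all_iff]
          exact e3
        filter_upwards [e4] with x hx
        rw [Finset.sum_apply]
        unfold FF
        rw [hs, Finset.sum_map]
        apply Finset.sum_congr rfl
        intro i _
        rw [hx i]
        simp
      rw [Lp.norm_def, eLpNorm_congr_ae e1, eLpNorm_one_eq_lintegral_enorm,
        ← ofReal_integral_norm_eq_lintegral_enorm (integrable_TT (continuous_FF _ _)),
        ENNReal.toReal_ofReal (by positivity)]
    rw [← h2, h3]
    exact h1
  obtain ⟨L, hL1, hL2⟩ := exists_functional v (fun i : ℕ => (cf (i + 1) : ℂ)) C1 C1_nonneg key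
  obtain ⟨g, hg1, hg2⟩ := exists_bounded_rep L C1 hL2
  refine ⟨g, hg1, ?_⟩
  intro n hn
  obtain ⟨i, rfl⟩ := Nat.exists_eq_succ_of_ne_zero hn
  rw [← hg2 (chi (i + 1)) (hchi2 (i + 1))]
  exact hL1 i

/-- There is a bounded measurable function on the infinite torus with Haar measure whose Fourier coefficient at the exponent vector of n is 1 for n=1 and 1/(√n·log n) for n≥2, i.e. whose Riesz projection is the symbol φ₀. -/
theorem result :
    ∃ f : (ℕ → UnitAddCircle) → ℂ,
      MemLp f ⊤ (Measure.infinitePi (fun _ : ℕ => AddCircle.haarAddCircle (T := 1))) ∧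
      (∫ x, f x ∂(Measure.infinitePi (fun _ : ℕ => AddCircle.haarAddCircle (T := 1)))) = 1 ∧
      ∀ n : ℕ, 2 ≤ n →
        (∫ x, (∏ k ∈ Finset.range n,
            fourier (-((n.factorization (Nat.nth Nat.Prime k) : ℕ) : ℤ)) (x k)) * f x
          ∂(Measure.infinitePi (fun _ : ℕ => AddCircle.haarAddCircle (T := 1))))
          = (((Real.sqrt n * Real.log n)⁻¹ : ℝ) : ℂ) := by
  obtain ⟨g, hg1, hg2⟩ := exists_g
  have hconj : ∀ n : ℕ, n ≠ 0 →
      ∫ x, (starRingEnd ℂ) (Pool.Agent.Work.MP_a3494b_an.chi n x) * g x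
        ∂Pool.Agent.Work.MP_a3494b_an.mu = (Pool.Agent.Work.MP_a3494b_an.cf n : ℂ) := by
    intro n hn
    have h1 := congrArg (starRingEnd ℂ) (hg2 n hn)
    rw [← integral_conj, Complex.conj_ofReal] at h1
    rw [← h1]
    congr 1
    funext x
    rw [map_mul, Complex.conj_conj, mul_comm]
  refine ⟨g, hg1, ?_, ?_⟩
  · have h1 := hconj 1 one_ne_zero
    simp only [Pool.Agent.Work.MP_a3494b_an.chi_one, map_one, one_mul] at h1
    rw [show (∫ x, g x ∂(Measure.infinitePi
      (fun _ : ℕ => AddCircle.haarAddCircle (T := 1)))) = _ from h1]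
    simp [Pool.Agent.Work.MP_a3494b_an.cf]
  · intro n hn
    have h1 := hconj n (by omega)
    have h2 : (Pool.Agent.Work.MP_a3494b_an.cf n : ℂ) =
        (((Real.sqrt n * Real.log n)⁻¹ : ℝ) : ℂ) := by
      unfold Pool.Agent.Work.MP_a3494b_an.cf
      rw [if_neg (by omega)]
    rw [h2] at h1
    rw [← h1]
    congr 1
    funext x
    rw [Pool.Agent.Work.MP_a3494b_an.conj_chi]

end Pool.Agent.S05673
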