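import Pool.Statements.S07499

set_option autoImplicit false
open Pool Pool.MP_1d4c69_co

namespace Pool.Agent.S07499

/-- Circular distance on `Z/8`. -/
def c8 (i j : ℕ) : ℕ := min ((i + 8 - j) % 8) ((j + 8 - i) % 8)

/-- The distance of the torus `C₃ □ C₈`; the vertex `(i, j)` is numbered `8 i + j`. -/
def D (u v : Fin 24) : ℕ :=
  (if u.val / 8 = v.val / 8 then 0 else 1) + c8 (u.val % 8) (v.val % 8)

/-- The torus `C₃ □ C₈`. -/
def T : SimpleGraph (Fin 24) where
  Adj u v := D u v = 1
  symm := by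
    have h : ∀ u v : Fin 24, D u v = 1 → D v u = 1 := by decide +kernel
    exact ⟨fun u v => h u v⟩
  loopless := ⟨by decide +kernel⟩

theorem D_symm : ∀ u v : Fin 24, D u v = D v u := by decide +kernel
theorem D_self : ∀ u : Fin 24, D u u = 0 := by decide +kernel
theorem D_eq : ∀ u v : Fin 24, D u v = 0 → u = v := by decide +kernel
theorem D_lip : ∀ u w v : Fin 24, D u w = 1 → D u v ≤ D w v + 1 := by decide +kernel
theorem D_step : ∀ u v : Fin 24, u ≠ v → ∃ w : Fin 24, D u w = 1 ∧ D u v = D w v + 1 := by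
  decide +kernel

theorem exists_walk (v : Fin 24) :
    ∀ (n : ℕ) (u : Fin 24), D u v = n → ∃ p : T.Walk u v, p.length = n := by
  intro n
  induction n with
  | zero =>
    intro u h
    obtain rfl := D_eq u v h
    exact ⟨SimpleGraph.Walk.nil, rfl⟩
  | succ n ih =>
    intro u h
    have hne : u ≠ v := by
      rintro rfl
      rw [D_self] at h
      omega
    obtain ⟨w, hw1, hw2⟩ := D_step u v hne
    obtain ⟨p, hp⟩ := ih w (by omega)
    have hadj : T.Adj u w := hw1
    exact ⟨SimpleGraph.Walk.cons hadj p, by simp [hp]⟩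

theorem walk_ge (u v : Fin 24) (p : T.Walk u v) : D u v ≤ p.length := by
  induction p with
  | nil => simp [D_self]
  | @cons a b c h p ih =>
    have h1 : D a c ≤ D b c + 1 := D_lip a b c h
    rw [SimpleGraph.Walk.length_cons]
    omega

theorem T_conn : T.Connected := by
  have : Nonempty (Fin 24) := ⟨0⟩
  refine ⟨fun u v => ?_⟩
  obtain ⟨p, _⟩ := exists_walk v (D u v) u rfl
  exact ⟨p⟩

theorem dist_eq (u v : Fin 24) : T.dist u v = D u v := by
  apply le_antisymm
  · obtain ⟨p, hp⟩ := exists_walk v (D u v) u rfl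
    rw [← hp]
    exact SimpleGraph.dist_le p
  · obtain ⟨p, hp⟩ := (T_conn u v).exists_walk_length_eq_dist
    rw [← hp]
    exact walk_ge u v p

/-- Ball sizes: `3 |B_r| ≤ 17 r` for `1 ≤ r ≤ 4`. -/
theorem ball_le : ∀ v : Fin 24, ∀ r : Fin 5, 1 ≤ r.val →
    3 * (Finset.univ.filter (fun u => D u v ≤ r.val)).card ≤ 17 * r.val := by
  decide +kernel

/-- `hit r l` says that some ball of radius `r` contains every vertex in the list `l`. -/
def hit (r : ℕ) (l : List (Fin 24)) : Bool :=
  (List.finRange 24).any fun v => l.all fun a => decide (D v a ≤ r)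

theorem hit_spec {r : ℕ} {l : List (Fin 24)} (h : hit r l = true) :
    ∃ v : Fin 24, ∀ a ∈ l, D v a ≤ r := by
  unfold hit at h
  rw [List.any_eq_true] at h
  obtain ⟨v, _, hv⟩ := h
  refine ⟨v, fun a ha => ?_⟩
  rw [List.all_eq_true] at hv
  exact of_decide_eq_true (hv a ha)

/-- Every quadruple of distinct vertices violates one of the multipacking constraints. -/
theorem four : ∀ a b : Fin 24, a < b → hit 1 [a, b] = true ∨
    ∀ c : Fin 24, b < c → (hit 1 [a, c] || hit 1 [b, c] || hit 2 [a, b, c]) = true ∨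
    ∀ d : Fin 24, c < d → (hit 1 [a, d] || hit 1 [b, d] || hit 1 [c, d] ||
      hit 2 [a, b, d] || hit 2 [a, c, d] || hit 2 [b, c, d] || hit 3 [a, b, c, d]) = true := by
  decide +kernel

/-- If a multipacking `M` contains all vertices of a duplicate-free list `l`, then no ball of
radius `r ≥ 1` with `r < l.length` contains `l`. -/
theorem not_hit {M : Finset (Fin 24)}
    (hM : ∀ v : Fin 24, ∀ r : ℕ, 1 ≤ r → (M.filter (fun u => T.dist v u ≤ r)).card ≤ r)
    {r : ℕ} (hr : 1 ≤ r) {l : List (Fin 24)} (hl : l.Nodup) (hlM : ∀ a ∈ l, a ∈ M)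
    (hlen : r < l.length) : hit r l = false := by
  by_contra hne
  have h : hit r l = true := by simpa using hne
  obtain ⟨v, hv⟩ := hit_spec h
  have h1 := hM v r hr
  have h2 : l.toFinset ⊆ M.filter (fun u => T.dist v u ≤ r) := by
    intro a ha
    have ha' : a ∈ l := List.mem_toFinset.mp ha
    rw [Finset.mem_filter]
    exact ⟨hlM a ha', by rw [dist_eq]; exact hv a ha'⟩
  have h3 := Finset.card_le_card h2
  rw [List.toFinset_card_of_nodup hl] at h3
  omega

theorem no_four (M : Finset (Fin 24))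
    (hM : ∀ v : Fin 24, ∀ r : ℕ, 1 ≤ r → (M.filter (fun u => T.dist v u ≤ r)).card ≤ r) :
    M.card ≤ 3 := by
  by_contra hcon
  have h4 : 4 ≤ M.card := by omega
  obtain ⟨S, hSM, hS⟩ := Finset.exists_subset_card_eq h4
  have ha := hSM (Finset.orderEmbOfFin_mem S hS 0)
  have hb := hSM (Finset.orderEmbOfFin_mem S hS 1)
  have hc := hSM (Finset.orderEmbOfFin_mem S hS 2)
  have hd := hSM (Finset.orderEmbOfFin_mem S hS 3)
  have hab : S.orderEmbOfFin hS 0 < S.orderEmbOfFin hS 1 :=
    (S.orderEmbOfFin hS).strictMono (by decide)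
  have hbc : S.orderEmbOfFin hS 1 < S.orderEmbOfFin hS 2 :=
    (S.orderEmbOfFin hS).strictMono (by decide)
  have hcd : S.orderEmbOfFin hS 2 < S.orderEmbOfFin hS 3 :=
    (S.orderEmbOfFin hS).strictMono (by decide)
  generalize S.orderEmbOfFin hS 0 = a at *
  generalize S.orderEmbOfFin hS 1 = b at *
  generalize S.orderEmbOfFin hS 2 = c at *
  generalize S.orderEmbOfFin hS 3 = d at *
  have hac : a < c := hab.trans hbc
  have had : a < d := hac.trans hcd
  have hbd : b < d := hbc.trans hcd
  have e1 : hit 1 [a, b] = false := not_hit hM le_rfl (by simp [hab.ne])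
    (by simp [ha, hb]) (by simp)
  have e2 : hit 1 [a, c] = false := not_hit hM le_rfl (by simp [hac.ne])
    (by simp [ha, hc]) (by simp)
  have e3 : hit 1 [b, c] = false := not_hit hM le_rfl (by simp [hbc.ne])
    (by simp [hb, hc]) (by simp)
  have e4 : hit 2 [a, b, c] = false := not_hit hM (by norm_num)
    (by simp [hab.ne, hac.ne, hbc.ne]) (by simp [ha, hb, hc]) (by simp)
  have e5 : hit 1 [a, d] = false := not_hit hM le_rfl (by simp [had.ne])
    (by simp [ha, hd]) (by simp)
  have e6 : hit 1 [b, d] = false := not_hit hM le_rfl (by simp [hbd.ne])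
    (by simp [hb, hd]) (by simp)
  have e7 : hit 1 [c, d] = false := not_hit hM le_rfl (by simp [hcd.ne])
    (by simp [hc, hd]) (by simp)
  have e8 : hit 2 [a, b, d] = false := not_hit hM (by norm_num)
    (by simp [hab.ne, had.ne, hbd.ne]) (by simp [ha, hb, hd]) (by simp)
  have e9 : hit 2 [a, c, d] = false := not_hit hM (by norm_num)
    (by simp [hac.ne, had.ne, hcd.ne]) (by simp [ha, hc, hd]) (by simp)
  have e10 : hit 2 [b, c, d] = false := not_hit hM (by norm_num)
    (by simp [hbc.ne, hbd.ne, hcd.ne]) (by simp [hb, hc, hd]) (by simp)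
  have e11 : hit 3 [a, b, c, d] = false := not_hit hM (by norm_num)
    (by simp [hab.ne, hac.ne, had.ne, hbc.ne, hbd.ne, hcd.ne]) (by simp [ha, hb, hc, hd])
    (by simp)
  rcases four a b hab with h | h
  · rw [e1] at h
    exact absurd h (by decide)
  · rcases h c hbc with h | h
    · rw [e2, e3, e4] at h
      exact absurd h (by decide)
    · have h := h d hcd
      rw [e5, e6, e7, e8, e9, e10, e11] at h
      exact absurd h (by decide)

theorem three_ok : ∀ v : Fin 24,
    ((({0, 3, 13} : Finset (Fin 24)).filter (fun u => D v u ≤ 1)).card ≤ 1) ∧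
    ((({0, 3, 13} : Finset (Fin 24)).filter (fun u => D v u ≤ 2)).card ≤ 2) := by
  decide +kernel

theorem broadcast_ge (f : Fin 24 → ℕ)
    (hf : ∀ u : Fin 24, ∃ v : Fin 24, 1 ≤ f v ∧ T.dist u v ≤ f v) : 5 ≤ ∑ v, f v := by
  by_contra hcon
  have hsum : ∑ v, f v ≤ 4 := by omega
  have hle : ∀ v, f v ≤ 4 := fun v =>
    (Finset.single_le_sum (f := f) (fun i _ => Nat.zero_le _) (Finset.mem_univ v)).trans hsum
  let B : Fin 24 → Finset (Fin 24) := fun v =>
    if 1 ≤ f v then Finset.univ.filter (fun u => D u v ≤ f v) else ∅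
  have hB : ∀ v, 3 * (B v).card ≤ 17 * f v := by
    intro v
    by_cases hv : 1 ≤ f v
    · have := ball_le v ⟨f v, by have := hle v; omega⟩ hv
      simpa [B, hv] using this
    · simp [B, hv]
  have hcov : (Finset.univ : Finset (Fin 24)) ⊆ Finset.univ.biUnion B := by
    intro u _
    obtain ⟨v, hv1, hv2⟩ := hf u
    rw [Finset.mem_biUnion]
    refine ⟨v, Finset.mem_univ v, ?_⟩
    rw [dist_eq] at hv2
    simp [B, hv1, hv2]
  have h1 := Finset.card_le_card hcov
  have h2 : (Finset.univ.biUnion B).card ≤ ∑ v, (B v).card := Finset.card_biUnion_le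
  have h3 : 3 * ∑ v, (B v).card ≤ 17 * ∑ v, f v := by
    rw [Finset.mul_sum, Finset.mul_sum]
    exact Finset.sum_le_sum fun v _ => hB v
  rw [Finset.card_univ, Fintype.card_fin] at h1
  omega

/-- There is a finite connected graph whose largest multipacking (every radius-r ball holds at most r of its vertices) has exactly 3 vertices, while every dominating broadcast has total cost at least 5. -/
theorem result :
    ∃ (V : Type) (_ : Fintype V) (G : SimpleGraph V),
      G.Connected ∧
      (∃ M : Finset V, M.card = 3 ∧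
        ∀ v : V, ∀ r : ℕ, 1 ≤ r → (M.filter (fun u => G.dist v u ≤ r)).card ≤ r) ∧
      (∀ M : Finset V,
        (∀ v : V, ∀ r : ℕ, 1 ≤ r → (M.filter (fun u => G.dist v u ≤ r)).card ≤ r) →
        M.card ≤ 3) ∧
      (∀ f : V → ℕ, (∀ u : V, ∃ v : V, 1 ≤ f v ∧ G.dist u v ≤ f v) →
        5 ≤ ∑ v, f v) := by
  refine ⟨Fin 24, inferInstance, T, T_conn, ⟨{0, 3, 13}, by decide, ?_⟩, no_four, broadcast_ge⟩
  intro v r hr
  simp only [dist_eq]
  rcases Nat.lt_or_ge r 3 with h | h
  · interval_cases r
    · exact (three_ok v).1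
    · exact (three_ok v).2
  · exact (Finset.card_filter_le _ _).trans (le_trans (by decide) h)

end Pool.Agent.S07499
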