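import Pool.Statements.S07523
import Pool.Agent.Work.MP_1e13ac_W.PkFinal
import Pool.Agent.Work.MP_1e13ac_W.L1Main
import Pool.Agent.Work.MP_1e13ac_W.PkS0h
import Pool.Agent.Work.MP_1e13ac_W.PkS1
import Pool.Agent.Work.MP_1e13ac_W.PkS24
import Pool.Agent.Work.MP_1e13ac_W.PkS3
import Pool.Agent.Work.MP_1e13ac_W.PkS5
import Pool.Agent.Work.MP_1e13ac_W.PkS6
import Pool.Agent.Work.MP_1e13ac_W.PkS7

set_option autoImplicit false
open Pool Pool.MP_1e13ac_co

namespace Pool.Agent.S07523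

/-- Every finite cubic graph has a vertex bisection whose two induced subgraphs have all components of at most 4 vertices, are linear forests (acyclic, max degree ≤ 2), and are isomorphic to each other. -/
theorem result :
    ∀ (V : Type) [Fintype V] [DecidableEq V] (G : SimpleGraph V) [DecidableRel G.Adj],
      G.IsRegularOfDegree 3 →
      ∃ S : Set V,
        S.ncard = Sᶜ.ncard ∧
        (∀ c : (G.induce S).ConnectedComponent, c.supp.ncard ≤ 4) ∧
        (∀ c : (G.induce Sᶜ).ConnectedComponent, c.supp.ncard ≤ 4) ∧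
        (G.induce S).IsAcyclic ∧
        (∀ v, ((G.induce S).neighborSet v).ncard ≤ 2) ∧
        (G.induce Sᶜ).IsAcyclic ∧
        (∀ v, ((G.induce Sᶜ).neighborSet v).ncard ≤ 2) ∧
        Nonempty (G.induce S ≃g G.induce Sᶜ) := by
  exact Pool.Agent.Work.MP_1e13ac_W.frozen_of Pool.Agent.Work.MP_1e13ac_W.stmt_L1
    Pool.Agent.Work.MP_1e13ac_W.stmt_S0 Pool.Agent.Work.MP_1e13ac_W.stmt_S1
    Pool.Agent.Work.MP_1e13ac_W.stmt_S2 Pool.Agent.Work.MP_1e13ac_W.stmt_S3
    Pool.Agent.Work.MP_1e13ac_W.stmt_S4 Pool.Agent.Work.MP_1e13ac_W.stmt_S5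
    Pool.Agent.Work.MP_1e13ac_W.stmt_S6 Pool.Agent.Work.MP_1e13ac_W.stmt_S7

end Pool.Agent.S07523
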