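import Pool.Statements.S08102
import Pool.Agent.Work.MP_36d6be_co_V.Final

set_option autoImplicit false
open Pool Pool.MP_36d6be_co

namespace Pool.Agent.S08102

/-- The negation of the preceding statement: There is a set of continuum many points in real ℓ² such that any three distinct points of it form a triangle whose area (half the square root of the Gram determinant) is a nonzero rational number. -/
theorem result :
    ¬ (∃ S : Set (lp (fun _ : ℕ => ℝ) 2),
      Cardinal.mk S = Cardinal.continuum ∧
      ∀ a ∈ S, ∀ b ∈ S, ∀ c ∈ S, a ≠ b → b ≠ c → a ≠ c →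
        ∃ q : ℚ, q ≠ 0 ∧
          (1 / 2 : ℝ) * Real.sqrt (‖b - a‖ ^ 2 * ‖c - a‖ ^ 2 - (inner ℝ (b - a) (c - a)) ^ 2) = (q : ℝ)) := by
  exact Pool.Agent.Work.MP_36d6be_co_V.not_continuum
    Pool.Agent.Work.MP_36d6be_co_V.finiteness_prop

end Pool.Agent.S08102
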