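import Pool.Statements.S08499
import Pool.Agent.Work.MP_46fa68_76.Main
import Pool.Agent.Work.MP_46fa68_48t.H21
-- import your own Pool.Agent.* helpers here

set_option autoImplicit false
open Pool Pool.MP_46fa68_co

namespace Pool.Agent.S08499

/-- For n > 2t, a family of permutations of n points is a largest family in which any two members agree on at least t points exactly when it is all permutations sending t fixed distinct points to t fixed distinct values. -/
theorem result :
    ∀ n t : ℕ, 2 * t < n →
      ∀ F : Finset (Equiv.Perm (Fin n)),
        ((∀ σ ∈ F, ∀ τ ∈ F, t ≤ (Finset.univ.filter (fun i : Fin n => σ i = τ i)).card) ∧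
          (∀ G : Finset (Equiv.Perm (Fin n)),
            (∀ σ ∈ G, ∀ τ ∈ G, t ≤ (Finset.univ.filter (fun i : Fin n => σ i = τ i)).card) →
              G.card ≤ F.card)) ↔
        ∃ a b : Fin t → Fin n, Function.Injective a ∧ Function.Injective b ∧
          F = Finset.univ.filter (fun σ : Equiv.Perm (Fin n) => ∀ k : Fin t, σ (a k) = b k) := by
  exact Pool.EG.frozen_of_rest (Pool.JM.Tab.holds_41 Pool.EG.hKall)

end Pool.Agent.S08499
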