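import Pool.Statements.S09382
import Pool.Agent.Work.MP_6e2e82_co.QBlock
import Pool.Agent.Work.MP_6e2e82_co.BlockF

set_option autoImplicit false
open Pool Pool.MP_6e2e82_co

namespace Pool.Agent.S09382

/-- The negation of the preceding statement: There is a constant γ>0 such that every finite poset that is not a chain has distinct x,y whose average positions over all linear extensions satisfy 0 ≤ h(y) − h(x) ≤ 1 − γ. -/
theorem result :
    ¬ (∃ γ : ℝ, 0 < γ ∧
      ∀ (α : Type) [Fintype α] [PartialOrder α],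
        (∃ a b : α, ¬ a ≤ b ∧ ¬ b ≤ a) →
        ∀ L : Finset (α ≃ Fin (Fintype.card α)),
          (∀ f : α ≃ Fin (Fintype.card α), f ∈ L ↔ ∀ x y : α, x < y → f x < f y) →
          ∃ x y : α, x ≠ y ∧
            0 ≤ (∑ f ∈ L, ((f y : ℕ) : ℝ)) / (L.card : ℝ)
                - (∑ f ∈ L, ((f x : ℕ) : ℝ)) / (L.card : ℝ) ∧
            (∑ f ∈ L, ((f y : ℕ) : ℝ)) / (L.card : ℝ)
                - (∑ f ∈ L, ((f x : ℕ) : ℝ)) / (L.card : ℝ) ≤ 1 - γ) := by
  exact Pool.MP6e.blockC (Pool.MP6e.blockF Pool.MP6e.blockQ)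

end Pool.Agent.S09382
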