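import Pool.Statements.S09721
import Pool.Agent.Work.MP_7eddf1_co.GL.Contact

set_option autoImplicit false
open Pool Pool.MP_7eddf1_co

namespace Pool.Agent.S09721

open Pool.Agent.Work.MP_7eddf1.GL in
theorem aux (n m : ℕ) (hn : 0 < n) (s : Fin m → (Fin 3 → ℕ))
    (hs : ∀ k : Fin m, ∀ i : Fin 3, 1 ≤ s k i ∧ s k i ≤ n)
    (h2 : ∀ j k : Fin m, j < k →
        2 ≤ (Finset.univ.filter (fun i : Fin 3 => s j i < s k i)).card) :
    (m : ℝ) ≤ (n : ℝ) ^ ((3 : ℝ) / 2) := by
  classical
  have hn' : (0 : ℝ) < n := by exact_mod_cast hn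
  have key := J_le_one (R := fun i a b => a < b ∧ s a i < s b i)
    (fun i r t v h h' => ⟨h.1.trans h'.1, h.2.trans h'.2⟩) (fun i a b h => h.1)
    (fun a b hab i j hij => by
      by_contra hcon
      have hi : ¬ s a i < s b i := fun h => hcon (Or.inl ⟨hab, h⟩)
      have hj : ¬ s a j < s b j := fun h => hcon (Or.inr ⟨hab, h⟩)
      obtain ⟨k, hik, hjk⟩ := thd hij
      have hsub : (Finset.univ.filter (fun i : Fin 3 => s a i < s b i)) ⊆ {k} := by
        intro q hq
        rw [Finset.mem_filter] at hq
        rcases third hij hik hjk q with rfl | rfl | rfl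
        · exact absurd hq.2 hi
        · exact absurd hq.2 hj
        · exact Finset.mem_singleton_self _
      have h3 := (h2 a b hab).trans (Finset.card_le_card hsub)
      rw [Finset.card_singleton] at h3
      omega)
    (u' := fun i t => ((s t i : ℝ) - 1) / n) (l' := fun _ _ => 1 / (n : ℝ))
    (fun i => ⟨fun t => by
        have : (1 : ℝ) ≤ s t i := by exact_mod_cast (hs t i).1
        exact div_nonneg (by linarith) hn'.le,
      fun t => by positivity,
      fun t => by
        have : (s t i : ℝ) ≤ n := by exact_mod_cast (hs t i).2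
        rw [← add_div, div_le_one hn']
        linarith,
      fun a b hab => by
        have : (s a i : ℝ) + 1 ≤ s b i := by exact_mod_cast hab.2
        rw [← add_div]
        refine div_le_div_of_nonneg_right ?_ hn'.le
        linarith⟩)
  unfold J at key
  rw [Finset.sum_const, Finset.card_univ, Fintype.card_fin, nsmul_eq_mul, Finset.prod_const,
    Finset.card_univ, Fintype.card_fin] at key
  have e1 : (n : ℝ) ^ ((3 : ℝ) / 2) = Real.sqrt ((n : ℝ) ^ 3) := by
    rw [Real.sqrt_eq_rpow, ← Real.rpow_natCast, ← Real.rpow_mul hn'.le]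
    norm_num
  have e2 : Real.sqrt ((1 / (n : ℝ)) ^ 3) = 1 / Real.sqrt ((n : ℝ) ^ 3) := by
    rw [one_div_pow, Real.sqrt_div zero_le_one, Real.sqrt_one]
  have hpos : 0 < Real.sqrt ((n : ℝ) ^ 3) := Real.sqrt_pos.2 (by positivity)
  rw [e2, mul_one_div, div_le_one hpos] at key
  rw [e1]
  exact key

/-- For every n, any sequence of integer triples with coordinates in 1..n has length at most n^(3/2), provided each earlier triple is strictly below each later one in at least two coordinates. -/
theorem result :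
    ∀ n m : ℕ, ∀ s : Fin m → (Fin 3 → ℕ),
      (∀ k : Fin m, ∀ i : Fin 3, 1 ≤ s k i ∧ s k i ≤ n) →
      (∀ j k : Fin m, j < k →
        2 ≤ (Finset.univ.filter (fun i : Fin 3 => s j i < s k i)).card) →
      (m : ℝ) ≤ (n : ℝ) ^ ((3 : ℝ) / 2) := by
  intro n m s hs h2
  rcases Nat.eq_zero_or_pos n with hn | hn
  · rcases Nat.eq_zero_or_pos m with hm | hm
    · rw [hm, hn, Nat.cast_zero]
      exact Real.rpow_nonneg le_rfl _
    · have h := hs ⟨0, hm⟩ 0
      omega
  · exact aux n m hn s hs h2

end Pool.Agent.S09721
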