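import Pool.Statements.S09958
import Pool.Agent.Work.MP_891b03_co.Family

set_option autoImplicit false
open Filter Topology
open Pool Pool.MP_891b03_co
open Pool.Agent.Work.MP_891b03_co

namespace Pool.Agent.S09958

/-- The negation of the preceding statement: For every L ≥ 1 and every Benjamini–Schramm convergent sequence of finite connected graphs of bounded degree, the minimal edges-per-vertex of a connected graph on the same vertices whose metric is L-bi-Lipschitz to the original converges. -/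
theorem result :
    ¬ (∀ (D : ℕ) (L : ℝ), 1 ≤ L →
    ∀ (N : ℕ → ℕ) (G : ∀ n, SimpleGraph (Fin (N n))),
      (∀ n, (G n).Connected) →
      (∀ n (v : Fin (N n)), ((G n).neighborSet v).ncard ≤ D) →
      (∀ (r k : ℕ) (F : SimpleGraph (Fin k)) (o : Fin k), ∃ p : ℝ,
        Tendsto (fun n => (({v : Fin (N n) | ∃ e : {w : Fin (N n) // (G n).dist v w ≤ r} ≃ Fin k,
            (∀ a : {w : Fin (N n) // (G n).dist v w ≤ r}, (a.1 = v ↔ e a = o)) ∧
            (∀ a b : {w : Fin (N n) // (G n).dist v w ≤ r},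
              ((G n).Adj a.1 b.1 ↔ F.Adj (e a) (e b)))}.ncard : ℕ) : ℝ) / (N n : ℝ))
          atTop (𝓝 p)) →
      ∃ c : ℝ, Tendsto (fun n => sInf {x : ℝ | ∃ H : SimpleGraph (Fin (N n)), H.Connected ∧
          (∀ u v : Fin (N n), ((H.dist u v : ℝ) ≤ L * ((G n).dist u v : ℝ)) ∧
            (((G n).dist u v : ℝ) ≤ L * (H.dist u v : ℝ))) ∧
          x = (H.edgeSet.ncard : ℝ) / (N n : ℝ)}) atTop (𝓝 c)) := by
  intro hmain
  choose A B hAc hBc hAd hBd hstat hcost using exists_pair
  let s : ℕ → (Σ (_ : ℕ) (k : ℕ), SimpleGraph (Fin k) × Fin k) → ℝ :=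
    fun n i => statS (A n) i.1 i.2.1 i.2.2.1 i.2.2.2
  have hs : ∀ n, s n ∈ Set.pi Set.univ
      (fun _ : (Σ (_ : ℕ) (k : ℕ), SimpleGraph (Fin k) × Fin k) => Set.Icc (0 : ℝ) 1) := by
    intro n i _
    constructor
    · simp only [s, statS]; positivity
    · simp only [s, statS]
      apply div_le_one_of_le₀ _ (Nat.cast_nonneg _)
      have : {v : Fin (A n).1 | BallIso (A n).2 i.1 v i.2.2.1 i.2.2.2}.ncard ≤ (A n).1 := by
        refine (Set.ncard_le_ncard (Set.subset_univ _) (Set.toFinite _)).trans ?_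
        rw [Set.ncard_univ, Nat.card_eq_fintype_card, Fintype.card_fin]
      exact_mod_cast this
  obtain ⟨a, _, φ, hφ, hlim⟩ := (isCompact_univ_pi fun _ => isCompact_Icc).tendsto_subseq hs
  set Γ : ℕ → Σ N : ℕ, SimpleGraph (Fin N) :=
    fun n => if Even n then A (φ (n / 2)) else B (φ (n / 2)) with hΓ
  have hΓe : ∀ n, Even n → Γ n = A (φ (n / 2)) := fun n h => if_pos h
  have hΓo : ∀ n, ¬ Even n → Γ n = B (φ (n / 2)) := fun n h => if_neg h
  have h1 : ∀ n, (Γ n).2.Connected := by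
    intro n
    by_cases h : Even n
    · rw [hΓe n h]; exact hAc _
    · rw [hΓo n h]; exact hBc _
  have h2 : ∀ n (v : Fin (Γ n).1), ((Γ n).2.neighborSet v).ncard ≤ DD := by
    intro n
    by_cases h : Even n
    · rw [hΓe n h]; exact hAd _
    · rw [hΓo n h]; exact hBd _
  have hdiv : Tendsto (fun n : ℕ => n / 2) atTop atTop :=
    tendsto_atTop.2 fun b => eventually_atTop.2 ⟨2 * b, fun n hn => by omega⟩
  have h3 : ∀ (r k : ℕ) (F : SimpleGraph (Fin k)) (o : Fin k), ∃ p : ℝ,
      Tendsto (fun n => statS (Γ n) r k F o) atTop (𝓝 p) := by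
    intro r k F o
    refine ⟨a ⟨r, k, F, o⟩, ?_⟩
    have hl := (tendsto_pi_nhds.1 hlim ⟨r, k, F, o⟩).comp hdiv
    refine hl.congr' (eventually_atTop.2 ⟨2 * r, fun n hn => ?_⟩)
    have hr : r ≤ φ (n / 2) := le_trans (by omega) (hφ.le_apply (x := n / 2))
    simp only [Function.comp, s, hΓ]
    split_ifs
    · rfl
    · exact hstat (φ (n / 2)) r hr k F o
  obtain ⟨c, hc⟩ := hmain DD 2 (by norm_num) (fun n => (Γ n).1) (fun n => (Γ n).2) h1 h2 h3
  have hc' : Tendsto (fun n => costS (Γ n)) atTop (𝓝 c) := hc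
  have he : Tendsto (fun k : ℕ => costS (Γ (2 * k))) atTop (𝓝 c) :=
    hc'.comp (tendsto_atTop.2 fun b => eventually_atTop.2 ⟨b, fun n hn => by omega⟩)
  have ho : Tendsto (fun k : ℕ => costS (Γ (2 * k + 1))) atTop (𝓝 c) :=
    hc'.comp (tendsto_atTop.2 fun b => eventually_atTop.2 ⟨b, fun n hn => by omega⟩)
  have hle : ∀ k : ℕ, costS (Γ (2 * k + 1)) + 1 / 1020 ≤ costS (Γ (2 * k)) := by
    intro k
    have e1 : Even (2 * k) := even_two_mul k
    have e2 : ¬ Even (2 * k + 1) := by simp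
    simp only [hΓ, if_pos e1, if_neg e2]
    have e3 : (2 * k + 1) / 2 = k := by omega
    have e4 : 2 * k / 2 = k := by omega
    rw [e3, e4]
    exact hcost (φ k)
  have := le_of_tendsto_of_tendsto' (ho.add_const (1 / 1020 : ℝ)) he hle
  norm_num at this

end Pool.Agent.S09958
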