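import Pool.Statements.S10053
import Pool.Agent.Work.MP_8d2cba_co_h18.All

set_option autoImplicit false
open Pool Pool.MP_8d2cba_co

namespace Pool.Agent.S10053

/-- There is N such that every finite group of order n ≥ N whose Sylow 2-subgroups are trivial or non-cyclic, given any k ≥ 3 dividing n−1, has an orthomorphism fixing 1 with all other elements in k-cycles. -/
theorem result :
    ∃ N : ℕ, ∀ (G : Type) [Group G] [Fintype G],
      N ≤ Fintype.card G →
      (∀ P : Sylow 2 G, (P : Subgroup G) = ⊥ ∨ ¬ IsCyclic (P : Subgroup G)) →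
      ∀ k : ℕ, 3 ≤ k → k ∣ Fintype.card G - 1 →
        ∃ θ : Equiv.Perm G,
          Function.Bijective (fun x : G => x⁻¹ * θ x) ∧
          θ 1 = 1 ∧
          ∀ x : G, x ≠ 1 → Function.minimalPeriod θ x = k := by
  exact Pool.OM.all

end Pool.Agent.S10053
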