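import Pool.Statements.S10239
import Pool.Agent.Work.MP_959bfa_lin_helper27.Main

set_option autoImplicit false
open Pool Pool.MP_959bfa_co

namespace Pool.Agent.S10239

/-- There is a constant C such that for every k ≥ 1 and every finite planar point set A, some set of at most C∣A∣/k points meets every closed axis-parallel rectangle containing at least k points of A. -/
theorem result :
    ∃ C : ℝ, ∀ k : ℕ, 1 ≤ k → ∀ A : Finset (ℝ × ℝ),
      ∃ A' : Finset (ℝ × ℝ), (A'.card : ℝ) ≤ C * (A.card : ℝ) / (k : ℝ) ∧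
        ∀ a b : ℝ × ℝ, k ≤ ((A : Set (ℝ × ℝ)) ∩ Set.Icc a b).ncard →
          ∃ q ∈ A', q ∈ Set.Icc a b := by
  exact Wn.lin_FIN

end Pool.Agent.S10239
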