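import Pool.Statements.S10540
import Pool.Agent.Work.MP_a39d1e_co.Main

set_option autoImplicit false
open Pool Pool.MP_a39d1e_co

namespace Pool.Agent.S10540

/-- The negation of the preceding statement: For all k ≥ 1 and n ≥ 2 there is m ≥ 1 such that for every k×m array D of positive reals, ℝⁿ can be colored with m colors so that no two points of color j lie at any distance listed in column j of D. -/
theorem result :
    ¬ (∀ k n : ℕ, 1 ≤ k → 2 ≤ n →
      ∃ m : ℕ, 1 ≤ m ∧
        ∀ D : Fin k → Fin m → ℝ, (∀ i j, 0 < D i j) →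
          ∃ T : EuclideanSpace ℝ (Fin n) → Fin m,
            ∀ (i : Fin k) (j : Fin m) (x y : EuclideanSpace ℝ (Fin n)),
              dist x y = D i j → ¬ (T x = j ∧ T y = j)) := by
  intro h
  obtain ⟨m, _, hm⟩ := h 1 12 (le_refl _) (by norm_num)
  obtain ⟨D, hD, hno⟩ := Pool.Agent.Work.MP_a39d1e_co.upper_chromatic_infinite m
  exact hno (hm D hD)

end Pool.Agent.S10540
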