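import Pool.Statements.S10577
import Pool.Agent.Work.MP_a53b92_co.Final

set_option autoImplicit false
open Pool Pool.MP_a53b92_co

namespace Pool.Agent.S10577

/-- There is a bound N such that every 2-(v,k,λ) design with distinct blocks meeting in 0 or y points (both occurring), y ≥ 2, 2y < k < y(y+1), and no three pairwise disjoint blocks has v ≤ N. -/
theorem result :
    ∃ N : ℕ, ∀ (v k lam y : ℕ) (B : Finset (Finset (Fin v))),
      2 ≤ y → 2 * y < k → k < y * (y + 1) →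
      (∀ b ∈ B, b.card = k) →
      (∀ p q : Fin v, p ≠ q → (B.filter (fun b => p ∈ b ∧ q ∈ b)).card = lam) →
      (∀ b ∈ B, ∀ c ∈ B, b ≠ c → (b ∩ c).card = 0 ∨ (b ∩ c).card = y) →
      (∃ b ∈ B, ∃ c ∈ B, b ≠ c ∧ (b ∩ c).card = 0) →
      (∃ b ∈ B, ∃ c ∈ B, b ≠ c ∧ (b ∩ c).card = y) →
      (¬ ∃ a ∈ B, ∃ b ∈ B, ∃ c ∈ B, Disjoint a b ∧ Disjoint a c ∧ Disjoint b c) →
      v ≤ N := by
  exact Pool.Agent.MPa53b92.main_finiteness

end Pool.Agent.S10577
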