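import Pool.Statements.S10758
import Pool.Agent.Work.MP_acdd82_co.Counter

set_option autoImplicit false
open Pool Pool.MP_acdd82_co

namespace Pool.Agent.S10758

/-- The negation of the preceding statement: For a finite graph G of maximum degree Δ ≥ 2 and a matroid on its vertices, if the matroid has k ≥ 2Δ pairwise disjoint bases, then it has k pairwise disjoint bases each of which is an independent set of G. -/
theorem result :
    ¬ (∀ (V : Type) [Fintype V] [DecidableEq V] (G : SimpleGraph V) [DecidableRel G.Adj]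
      (M : Matroid V), M.E = Set.univ → 2 ≤ G.maxDegree →
      ∀ k : ℕ, 2 * G.maxDegree ≤ k →
        (∃ B : Fin k → Set V, (∀ i, M.IsBase (B i)) ∧
            Pairwise (fun i j => Disjoint (B i) (B j))) →
        ∃ B : Fin k → Set V, (∀ i, M.IsBase (B i) ∧ G.IsIndepSet (B i)) ∧
            Pairwise (fun i j => Disjoint (B i) (B j))) := by
  intro H
  have hdeg := Pool.Agent.Work.MP_acdd82_co.oppGraph_maxDegree 3 (by norm_num)
  obtain ⟨B, hB, hd⟩ := H (Fin 6 × Fin 3) (Pool.Agent.Work.MP_acdd82_co.oppGraph 3)
    (Pool.Agent.Work.MP_acdd82_co.k4Par 3) rfl (by rw [hdeg]; norm_num) (2 * 3)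
    (by rw [hdeg]) (Pool.Agent.Work.MP_acdd82_co.main_pos 3 (by norm_num))
  exact Pool.Agent.Work.MP_acdd82_co.main_neg 3 (by decide) B hB hd

end Pool.Agent.S10758
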