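import Pool.Statements.S11043
import Pool.Agent.Work.MP_b989b4_co.Final

set_option autoImplicit false
open Pool Pool.MP_b989b4_co

namespace Pool.Agent.S11043

/-- For every n there is a matroid with at least n elements that is not negatively correlated but all of whose proper minors are; that is, excluded minors for balanced matroids have unbounded size, hence there are infinitely many. -/
theorem result :
    ∀ n : ℕ, ∃ k : ℕ, n ≤ k ∧ ∃ M : Matroid (Fin k), M.E = Set.univ ∧
      (¬ ∀ e ∈ M.E, ∀ f ∈ M.E, e ≠ f →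
          Set.ncard {B : Set (Fin k) | M.IsBase B ∧ e ∈ B ∧ f ∈ B} *
            Set.ncard {B : Set (Fin k) | M.IsBase B} ≤
          Set.ncard {B : Set (Fin k) | M.IsBase B ∧ e ∈ B} *
            Set.ncard {B : Set (Fin k) | M.IsBase B ∧ f ∈ B}) ∧
      ∀ N : Matroid (Fin k), N.IsStrictMinor M →
        ∀ e ∈ N.E, ∀ f ∈ N.E, e ≠ f →
          Set.ncard {B : Set (Fin k) | N.IsBase B ∧ e ∈ B ∧ f ∈ B} *
            Set.ncard {B : Set (Fin k) | N.IsBase B} ≤
          Set.ncard {B : Set (Fin k) | N.IsBase B ∧ e ∈ B} *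
            Set.ncard {B : Set (Fin k) | N.IsBase B ∧ f ∈ B} := by
  intro n
  obtain ⟨k, hk, M, hME, ⟨e, f, hne, hbad⟩, hmin⟩ :=
    Pool.Agent.Work.MP_b989b4_co.main_exists n
  refine ⟨k, hk, M, hME, ?_, ?_⟩
  · intro h
    apply hbad
    rw [← Pool.Agent.Work.MP_b989b4_co.nc_iff M hne]
    exact h e (by rw [hME]; trivial) f (by rw [hME]; trivial) hne
  · intro N hN e he f hf hef
    rw [Pool.Agent.Work.MP_b989b4_co.nc_iff N hef]
    exact hmin N hN e he f hf hef

end Pool.Agent.S11043
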