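import Pool.Statements.S11368
import Pool.Agent.Work.MP_c7798c_co.Main

set_option autoImplicit false
open Pool Pool.MP_c7798c_co

namespace Pool.Agent.S11368

/-- The negation of the preceding statement: There is ε>0 such that for all large n, in the primitive-set saturation game on {2..n} with Prolonger moving first, Prolonger can force the final claimed set to have size at least εn. -/
theorem result :
    ¬ (∃ ε : ℝ, 0 < ε ∧ ∃ N : ℕ, ∀ n : ℕ, N ≤ n →
      ∃ W : Finset ℕ → Prop, W ∅ ∧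
        ∀ S : Finset ℕ, W S →
          ((∀ x ∈ Finset.Icc 2 n, ∃ y ∈ S, x ∣ y ∨ y ∣ x) →
              ε * (n : ℝ) ≤ (S.card : ℝ)) ∧
          (Even S.card →
              (∃ x ∈ Finset.Icc 2 n, ∀ y ∈ S, ¬ x ∣ y ∧ ¬ y ∣ x) →
              ∃ x ∈ Finset.Icc 2 n, (∀ y ∈ S, ¬ x ∣ y ∧ ¬ y ∣ x) ∧ W (insert x S)) ∧
          (¬ Even S.card →
              ∀ x ∈ Finset.Icc 2 n, (∀ y ∈ S, ¬ x ∣ y ∧ ¬ y ∣ x) → W (insert x S))) := by
  rintro ⟨ε, hε, N, hN⟩
  obtain ⟨n, hn, hmain⟩ := Pool.Agent.Work.MP_c7798c_co.main ε hε N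
  obtain ⟨W, hW0, hW⟩ := hN n hn
  refine hmain W hW0 ⟨?_, ?_, ?_⟩
  · intro S hS hterm
    exact (hW S hS).1 hterm
  · intro S hS hev hex
    exact (hW S hS).2.1 hev hex
  · intro S hS hodd x hx hf
    exact (hW S hS).2.2 hodd x hx hf


end Pool.Agent.S11368
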