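import Pool.Statements.S11828
import Pool.Agent.Work.MP_db704b_co_helper56.Final

set_option autoImplicit false
open Pool Pool.MP_db704b_co

namespace Pool.Agent.S11828

/-- The negation of the preceding statement: For all k and g there is f such that every finite graph with chromatic number at least f has a subgraph with chromatic number at least k and girth at least g. -/
theorem result :
    ¬ (∀ k g : ℕ, ∃ f : ℕ, ∀ (V : Type) [Fintype V] (G : SimpleGraph V),
      (f : ℕ∞) ≤ G.chromaticNumber →
        ∃ H : SimpleGraph V, H ≤ G ∧ (k : ℕ∞) ≤ H.chromaticNumber ∧ (g : ℕ∞) ≤ H.egirth) := by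
  intro h
  obtain ⟨f, hf⟩ := h 13 5
  obtain ⟨V, hV, G, hG, hH⟩ := Pool.EH.main f
  obtain ⟨H, h1, h2, h3⟩ := hf V G hG
  have h4 := (hH H h1 h3).chromaticNumber_le
  have h5 := h2.trans h4
  have h6 : (13 : ℕ) ≤ 12 := by exact_mod_cast h5
  omega

end Pool.Agent.S11828
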