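import Pool.Statements.S11898

/-!
# Intersectional configurations whose unions need many convex sets

We refute the `(d + 1) (n - 1)` bound for `d = 4`, `n = 2`.  A point `x` of `ℝ⁴` is read as the
monic quartic polynomial `P x`.  For `i < 33` let `KK i` be the set of all `x` with `P x j ≥ 0` for
every `j < 33`, `j ≠ i`, and `∑ P x j ≤ M`.  Any two of these sets meet in the polytope `K0`, in
which all 33 inequalities hold (its facets are pairwise adjacent: it is a dual cyclic polytope cut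
off by a hyperplane).  If the union of the `KK i` is a union of convex sets `C a`, then no `C a` can
contain a point beyond facet `i` on the hyperplane `j` and also a point beyond facet `j`.  So the
sets `B i = {a | C a has a point beyond facet i}` are pairwise distinct (they even form an
antichain), and five sets `C a` give only `32` possible sets `B i`.
-/

set_option autoImplicit false
open Pool Pool.MP_ddc6c3_co

namespace Pool.Agent.S11898

open Set

/-- The value at `t` of the monic polynomial of degree four whose lower coefficients are the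
coordinates of `x`. -/
noncomputable def P (x : EuclideanSpace ℝ (Fin 4)) (t : ℝ) : ℝ :=
  x 0 + x 1 * t + x 2 * t ^ 2 + x 3 * t ^ 3 + t ^ 4

lemma P_affine (x y : EuclideanSpace ℝ (Fin 4)) (a b t : ℝ) (h : a + b = 1) :
    P (a • x + b • y) t = a * P x t + b * P y t := by
  simp only [P, PiLp.add_apply, PiLp.smul_apply, smul_eq_mul]
  have hb : b = 1 - a := by linarith
  subst hb
  ring

lemma P_continuous (t : ℝ) : Continuous fun x : EuclideanSpace ℝ (Fin 4) => P x t := by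
  unfold P
  fun_prop

/-- The big bound. -/
def M : ℝ := 10 ^ 9

/-- The polyhedron with the `i`-th inequality dropped. -/
noncomputable def KK (i : Fin 33) : Set (EuclideanSpace ℝ (Fin 4)) :=
  {x | (∀ j : Fin 33, j ≠ i → 0 ≤ P x (j : ℕ)) ∧ ∑ j : Fin 33, P x (j : ℕ) ≤ M}

/-- The common intersection. -/
noncomputable def K0 : Set (EuclideanSpace ℝ (Fin 4)) :=
  {x | (∀ j : Fin 33, 0 ≤ P x (j : ℕ)) ∧ ∑ j : Fin 33, P x (j : ℕ) ≤ M}

lemma sum_continuous :
    Continuous fun x : EuclideanSpace ℝ (Fin 4) => ∑ j : Fin 33, P x (j : ℕ) :=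
  continuous_finsetSum _ fun _ _ => P_continuous _

lemma KK_closed (i : Fin 33) : IsClosed (KK i) := by
  have h : KK i = (⋂ j : Fin 33, ⋂ _ : j ≠ i, {x | 0 ≤ P x (j : ℕ)}) ∩
      {x | ∑ j : Fin 33, P x (j : ℕ) ≤ M} := by
    ext x
    simp [KK]
  rw [h]
  exact (isClosed_iInter fun j => isClosed_iInter fun _ =>
      isClosed_le continuous_const (P_continuous _)).inter
    (isClosed_le sum_continuous continuous_const)

lemma K0_closed : IsClosed K0 := by
  have h : K0 = (⋂ j : Fin 33, {x | 0 ≤ P x (j : ℕ)}) ∩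
      {x | ∑ j : Fin 33, P x (j : ℕ) ≤ M} := by
    ext x
    simp [K0]
  rw [h]
  exact (isClosed_iInter fun j => isClosed_le continuous_const (P_continuous _)).inter
    (isClosed_le sum_continuous continuous_const)

lemma sum_affine (x y : EuclideanSpace ℝ (Fin 4)) (a b : ℝ) (h : a + b = 1) :
    ∑ j : Fin 33, P (a • x + b • y) (j : ℕ) =
      a * ∑ j : Fin 33, P x (j : ℕ) + b * ∑ j : Fin 33, P y (j : ℕ) := by
  rw [Finset.mul_sum, Finset.mul_sum, ← Finset.sum_add_distrib]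
  exact Finset.sum_congr rfl fun j _ => P_affine x y a b _ h

lemma KK_convex (i : Fin 33) : Convex ℝ (KK i) := by
  intro x hx y hy a b ha hb hab
  refine ⟨fun j hj => ?_, ?_⟩
  · rw [P_affine x y a b _ hab]
    have h1 := hx.1 j hj
    have h2 := hy.1 j hj
    positivity
  · rw [sum_affine x y a b hab]
    have h1 := mul_le_mul_of_nonneg_left hx.2 ha
    have h2 := mul_le_mul_of_nonneg_left hy.2 hb
    calc _ ≤ a * M + b * M := add_le_add h1 h2
      _ = (a + b) * M := by ring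
      _ = M := by rw [hab, one_mul]

lemma inter_two {i j : Fin 33} (hij : i ≠ j) : KK i ∩ KK j = K0 := by
  ext x
  constructor
  · rintro ⟨h1, h2⟩
    refine ⟨fun l => ?_, h1.2⟩
    by_cases h : l = i
    · exact h2.1 l (by rw [h]; exact hij)
    · exact h1.1 l h
  · rintro ⟨h1, h2⟩
    exact ⟨⟨fun l _ => h1 l, h2⟩, ⟨fun l _ => h1 l, h2⟩⟩

lemma K0_sub (i : Fin 33) : K0 ⊆ KK i := fun _ hx => ⟨fun l _ => hx.1 l, hx.2⟩

lemma iInter_eq : (⋂ β, KK β) = K0 := by
  apply Subset.antisymm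
  · intro x hx
    rw [mem_iInter] at hx
    rw [← inter_two (show (0 : Fin 33) ≠ 1 by decide)]
    exact ⟨hx 0, hx 1⟩
  · exact subset_iInter fun i => K0_sub i

/-- The witness point beyond facet `i` and on facet `j`. -/
noncomputable def pt (i j : ℝ) : EuclideanSpace ℝ (Fin 4) :=
  WithLp.toLp 2 ![j ^ 2 * (i ^ 2 - 1 / 2), -(2 * j * (i ^ 2 - 1 / 2) + 2 * i * j ^ 2),
    i ^ 2 - 1 / 2 + 4 * i * j + j ^ 2, -(2 * (i + j))]

lemma P_pt (i j t : ℝ) : P (pt i j) t = (t - j) ^ 2 * ((t - i) ^ 2 - 1 / 2) := by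
  simp [P, pt]
  ring

lemma sq_ge_one {a b : ℕ} (h : a ≠ b) : 1 ≤ ((a : ℝ) - b) ^ 2 := by
  have h1 : (1 : ℤ) ≤ ((a : ℤ) - b) ^ 2 := by
    have h2 : (a : ℤ) - b ≠ 0 := by
      intro h3
      apply h
      omega
    have h4 : 0 < ((a : ℤ) - b) ^ 2 := by positivity
    omega
  exact_mod_cast h1

lemma sq_le {a b : Fin 33} : (((a : ℕ) : ℝ) - (b : ℕ)) ^ 2 ≤ 1024 := by
  have ha : ((a : ℕ) : ℝ) ≤ 32 := by exact_mod_cast Nat.lt_succ_iff.mp a.isLt
  have hb : ((b : ℕ) : ℝ) ≤ 32 := by exact_mod_cast Nat.lt_succ_iff.mp b.isLt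
  have ha0 : (0 : ℝ) ≤ ((a : ℕ) : ℝ) := by positivity
  have hb0 : (0 : ℝ) ≤ ((b : ℕ) : ℝ) := by positivity
  nlinarith

lemma pt_mem {i j : Fin 33} : pt (i : ℕ) (j : ℕ) ∈ KK i := by
  refine ⟨fun l hl => ?_, ?_⟩
  · rw [P_pt]
    have h1 : 1 ≤ (((l : ℕ) : ℝ) - (i : ℕ)) ^ 2 :=
      sq_ge_one (fun h => hl (Fin.ext h))
    have h2 : 0 ≤ (((l : ℕ) : ℝ) - (j : ℕ)) ^ 2 := by positivity
    apply mul_nonneg h2
    linarith
  · have h : ∀ l : Fin 33, P (pt (i : ℕ) (j : ℕ)) (l : ℕ) ≤ 1024 * 1024 := by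
      intro l
      rw [P_pt]
      have h1 : (((l : ℕ) : ℝ) - (i : ℕ)) ^ 2 ≤ 1024 := sq_le
      have h2 : (((l : ℕ) : ℝ) - (j : ℕ)) ^ 2 ≤ 1024 := sq_le
      have h3 : 0 ≤ (((l : ℕ) : ℝ) - (j : ℕ)) ^ 2 := by positivity
      nlinarith
    calc ∑ l : Fin 33, P (pt (i : ℕ) (j : ℕ)) (l : ℕ) ≤ ∑ l : Fin 33, (1024 * 1024 : ℝ) :=
          Finset.sum_le_sum fun l _ => h l
      _ ≤ M := by
          simp [M]
          norm_num

lemma pt_beyond {i j : Fin 33} (hij : i ≠ j) : P (pt (i : ℕ) (j : ℕ)) (i : ℕ) < 0 := by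
  rw [P_pt]
  have h1 : 1 ≤ (((i : ℕ) : ℝ) - (j : ℕ)) ^ 2 := sq_ge_one (fun h => hij (Fin.ext h))
  nlinarith

lemma pt_on (i j : Fin 33) : P (pt (i : ℕ) (j : ℕ)) (j : ℕ) = 0 := by
  rw [P_pt]
  ring

lemma K0_ssub (i : Fin 33) : K0 ⊂ KK i := by
  refine ⟨K0_sub i, fun h => ?_⟩
  obtain ⟨j, hj⟩ : ∃ j : Fin 33, i ≠ j := by
    by_cases h0 : i = 0
    · exact ⟨1, by rw [h0]; decide⟩
    · exact ⟨0, h0⟩
  have h1 := h (pt_mem (i := i) (j := j))
  have h2 := h1.1 i
  have h3 := pt_beyond hj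
  linarith

lemma K0_bound {x : EuclideanSpace ℝ (Fin 4)} (hx : x ∈ K0) (k : Fin 4) :
    x k ∈ Icc (-(10 : ℝ) ^ 12) (10 ^ 12) := by
  have hle : ∀ l : Fin 33, P x (l : ℕ) ≤ M := fun l =>
    (Finset.single_le_sum (f := fun j : Fin 33 => P x (j : ℕ)) (fun j _ => hx.1 j)
      (Finset.mem_univ l)).trans hx.2
  have a0 := hx.1 0
  have a1 := hx.1 1
  have a2 := hx.1 2
  have a3 := hx.1 3
  have b0 := hle 0
  have b1 := hle 1
  have b2 := hle 2
  have b3 := hle 3
  simp [P, M] at a0 a1 a2 a3 b0 b1 b2 b3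
  fin_cases k <;> simp <;> constructor <;> linarith

lemma K0_compact : IsCompact K0 := by
  have h : IsCompact ((EuclideanSpace.equiv (Fin 4) ℝ) ⁻¹'
      (Set.pi univ fun _ => Icc (-(10 : ℝ) ^ 12) (10 ^ 12))) :=
    (EuclideanSpace.equiv (Fin 4) ℝ).toHomeomorph.isCompact_preimage.mpr
      (isCompact_univ_pi fun _ => isCompact_Icc)
  exact h.of_isClosed_subset K0_closed fun x hx k _ => K0_bound hx k

/-- A point of the interior. -/
noncomputable def x0 : EuclideanSpace ℝ (Fin 4) := WithLp.toLp 2 ![1, 0, 0, 0]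

lemma P_x0 (t : ℝ) : P x0 t = 1 + t ^ 4 := by
  simp [P, x0]

lemma K0_interior : (interior K0).Nonempty := by
  have hopen : IsOpen ((⋂ j : Fin 33, {x : EuclideanSpace ℝ (Fin 4) | 0 < P x (j : ℕ)}) ∩
      {x | ∑ j : Fin 33, P x (j : ℕ) < M}) :=
    (isOpen_iInter_of_finite fun j => isOpen_lt continuous_const (P_continuous _)).inter
      (isOpen_lt sum_continuous continuous_const)
  refine ⟨x0, interior_maximal ?_ hopen ?_⟩
  · rintro x ⟨h1, h2⟩
    rw [mem_iInter] at h1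
    exact ⟨fun j => (h1 j).le, le_of_lt h2⟩
  · refine ⟨mem_iInter.mpr fun j => ?_, ?_⟩
    · change 0 < P x0 (j : ℕ)
      rw [P_x0]
      positivity
    · change ∑ j : Fin 33, P x0 (j : ℕ) < M
      have h : ∀ l : Fin 33, P x0 (l : ℕ) ≤ 1 + 32 ^ 4 := by
        intro l
        rw [P_x0]
        have hl : ((l : ℕ) : ℝ) ≤ 32 := by exact_mod_cast Nat.lt_succ_iff.mp l.isLt
        have := pow_le_pow_left₀ (by positivity : (0 : ℝ) ≤ ((l : ℕ) : ℝ)) hl 4
        linarith
      calc ∑ l : Fin 33, P x0 (l : ℕ) ≤ ∑ l : Fin 33, (1 + 32 ^ 4 : ℝ) :=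
            Finset.sum_le_sum fun l _ => h l
        _ < M := by
            simp [M]
            norm_num

lemma K0_convex : Convex ℝ K0 := by
  rw [← iInter_eq]
  exact convex_iInter KK_convex

/-- A point beyond two facets is not in the union. -/
lemma not_mem_union {z : EuclideanSpace ℝ (Fin 4)} {i j : Fin 33} (hij : i ≠ j)
    (hi : P z (i : ℕ) < 0) (hj : P z (j : ℕ) < 0) : z ∉ ⋃ l, KK l := by
  rw [mem_iUnion]
  rintro ⟨l, hl⟩
  have h1 : i = l := by
    by_contra h
    have := hl.1 i h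
    linarith
  have h2 : j = l := by
    by_contra h
    have := hl.1 j h
    linarith
  exact hij (h1.trans h2.symm)

/-- A convex subset of the union that has a point beyond facet `i` and on hyperplane `j` has no
point beyond facet `j`. -/
lemma key {C : Set (EuclideanSpace ℝ (Fin 4))} (hC : Convex ℝ C) (hsub : C ⊆ ⋃ l, KK l)
    {i j : Fin 33} (hij : i ≠ j) {x y : EuclideanSpace ℝ (Fin 4)} (hx : x ∈ C) (hy : y ∈ C)
    (hxi : P x (i : ℕ) < 0) (hxj : P x (j : ℕ) = 0) : 0 ≤ P y (j : ℕ) := by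
  by_contra hneg
  push Not at hneg
  obtain ⟨δ, hδ0, hδ1, hδ⟩ : ∃ δ : ℝ, 0 < δ ∧ δ ≤ 1 ∧
      (1 - δ) * P x (i : ℕ) + δ * P y (i : ℕ) < 0 := by
    have hc : Filter.Tendsto (fun δ : ℝ => (1 - δ) * P x (i : ℕ) + δ * P y (i : ℕ))
        (nhdsWithin 0 (Ioi 0)) (nhds ((1 - 0) * P x (i : ℕ) + 0 * P y (i : ℕ))) := by
      apply Filter.Tendsto.mono_left _ nhdsWithin_le_nhds
      apply Continuous.tendsto
      fun_prop
    have h1 : ∀ᶠ δ in nhdsWithin (0 : ℝ) (Ioi 0),
        (1 - δ) * P x (i : ℕ) + δ * P y (i : ℕ) < 0 :=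
      hc.eventually_lt_const (by simpa using hxi)
    have h2 : ∀ᶠ δ in nhdsWithin (0 : ℝ) (Ioi 0), δ ∈ Ioo (0 : ℝ) 1 :=
      Ioo_mem_nhdsGT one_pos
    obtain ⟨δ, hd1, hd2⟩ := (h1.and h2).exists
    exact ⟨δ, hd2.1, hd2.2.le, hd1⟩
  have hz : (1 - δ) • x + δ • y ∈ C := hC hx hy (by linarith) hδ0.le (by ring)
  refine not_mem_union hij ?_ ?_ (hsub hz)
  · rw [P_affine x y _ _ _ (by ring)]
    exact hδ
  · rw [P_affine x y _ _ _ (by ring), hxj]
    nlinarith

/-- The negation of the preceding statement: Consider closed convex sets in R^d whose common intersection is a convex body strictly inside each one, and let n ≥ 2 be least such that any n of them intersect in that body. Then their union is a union of at most (d+1)(n-1) closed convex sets. -/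
theorem result :
    ¬ (∀ (d n : ℕ) (I : Type) (K : I → Set (EuclideanSpace ℝ (Fin d))),
      (∀ α, IsClosed (K α) ∧ Convex ℝ (K α)) →
      IsCompact (⋂ β, K β) →
      Convex ℝ (⋂ β, K β) →
      (interior (⋂ β, K β)).Nonempty →
      (∀ α, (⋂ β, K β) ⊂ K α) →
      2 ≤ n →
      (∀ S : Finset I, S.card = n → (⋂ α ∈ S, K α) = ⋂ β, K β) →
      (∀ m : ℕ, (∀ S : Finset I, S.card = m → (⋂ α ∈ S, K α) = ⋂ β, K β) → n ≤ m) →
      ∃ C : Fin ((d + 1) * (n - 1)) → Set (EuclideanSpace ℝ (Fin d)),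
        (∀ i, IsClosed (C i) ∧ Convex ℝ (C i)) ∧ (⋃ i, C i) = ⋃ α, K α) := by
  intro H
  obtain ⟨C, hC, hU⟩ := H 4 2 (Fin 33) KK (fun α => ⟨KK_closed α, KK_convex α⟩)
    (by rw [iInter_eq]; exact K0_compact) (by rw [iInter_eq]; exact K0_convex)
    (by rw [iInter_eq]; exact K0_interior) (fun α => by rw [iInter_eq]; exact K0_ssub α)
    le_rfl
    (by
      intro S hS
      obtain ⟨i, j, hij, rfl⟩ := Finset.card_eq_two.mp hS
      rw [iInter_eq, ← inter_two hij]
      simp)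
    (by
      intro m hm
      by_contra hlt
      push Not at hlt
      interval_cases m
      · have h := hm ∅ rfl
        rw [iInter_eq] at h
        simp only [Finset.notMem_empty, iInter_of_empty, iInter_univ] at h
        have h1 : pt ((0 : Fin 33) : ℕ) ((1 : Fin 33) : ℕ) ∈ K0 := by
          rw [← h]
          trivial
        have h2 := h1.1 0
        have h3 := pt_beyond (i := 0) (j := 1) (by decide)
        linarith
      · have h := hm {0} rfl
        rw [iInter_eq] at h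
        simp only [Finset.mem_singleton, iInter_iInter_eq_left] at h
        exact (K0_ssub 0).ne h.symm)
  classical
  let B : Fin 33 → Finset (Fin ((4 + 1) * (2 - 1))) := fun i =>
    Finset.univ.filter fun a => ∃ y ∈ C a, P y (i : ℕ) < 0
  obtain ⟨i, j, hij, hB⟩ := Fintype.exists_ne_map_eq_of_card_lt B (by simp)
  have hx : pt (i : ℕ) (j : ℕ) ∈ ⋃ a, C a := by
    rw [hU]
    exact mem_iUnion.mpr ⟨i, pt_mem⟩
  obtain ⟨a, ha⟩ := mem_iUnion.mp hx
  have h1 : a ∈ B i := by
    simp only [B, Finset.mem_filter, Finset.mem_univ, true_and]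
    exact ⟨_, ha, pt_beyond hij⟩
  rw [hB] at h1
  simp only [B, Finset.mem_filter, Finset.mem_univ, true_and] at h1
  obtain ⟨y, hy, hyj⟩ := h1
  have hsub : C a ⊆ ⋃ l, KK l := by
    rw [← hU]
    exact subset_iUnion C a
  have := key (hC a).2 hsub hij ha hy (pt_beyond hij) (pt_on i j)
  linarith

end Pool.Agent.S11898
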