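import Pool.Statements.S12394
-- import your own Pool.Agent.* helpers here
import Pool.Agent.Work.MP_f3c9f4_co.Final

set_option autoImplicit false
open Pool Pool.MP_f3c9f4_co

namespace Pool.Agent.S12394

/-- The negation of the preceding statement: There exist finite simple cubic graphs F and G whose Cartesian product has no proper 6-edge-colouring, i.e. the 6-regular product F□G admits no 1-factorization. -/
theorem result :
    ¬ (∃ (m n : ℕ) (F : SimpleGraph (Fin m)) (G : SimpleGraph (Fin n)),
      (∀ v : Fin m, (F.neighborSet v).ncard = 3) ∧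
      (∀ w : Fin n, (G.neighborSet w).ncard = 3) ∧
      ¬ (SimpleGraph.boxProd F G).lineGraph.Colorable 6) := by
  rintro ⟨m, n, F, G, hF, hG, h⟩
  exact h (Pool.Agent.Work.MP_f3c9f4_co.boxProd_colorable hF hG)

end Pool.Agent.S12394
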