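import Pool.Statements.S14280
import Pool.Agent.Work.MP_fbd347_gt.LevelOne
import Pool.Agent.Work.MP_fbd347_gt.LevelTwo
import Pool.Agent.Work.MP_fbd347_gt.Space

set_option autoImplicit false
open Pool Pool.MP_fbd347_gt

namespace Pool.Agent.S14280

/-- The negation of the preceding statement: For every Tychonoff X: if the Hewitt realcompactification of Cp(X) (its evaluation-closure in a real power) is Lindelöf Sigma (compact cover plus countable network modulo it), then so is that of Cp(Cp(X)). -/
theorem result :
    ¬ (∀ (X : Type) [TopologicalSpace X] [T35Space X],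
    (∃ F : Set (Set ({g : {f : X → ℝ // Continuous f} → ℝ // Continuous g} → ℝ)),
      F.Countable ∧
      ∀ x ∈ closure (Set.range (fun (y : {f : X → ℝ // Continuous f})
              (g : {g : {f : X → ℝ // Continuous f} → ℝ // Continuous g}) => g.1 y)),
        ∃ K : Set ({g : {f : X → ℝ // Continuous f} → ℝ // Continuous g} → ℝ),
          IsCompact K ∧ x ∈ K ∧
          K ⊆ closure (Set.range (fun (y : {f : X → ℝ // Continuous f})
              (g : {g : {f : X → ℝ // Continuous f} → ℝ // Continuous g}) => g.1 y)) ∧
          ∀ U : Set ({g : {f : X → ℝ // Continuous f} → ℝ // Continuous g} → ℝ),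
            IsOpen U → K ⊆ U →
              ∃ A ∈ F, K ⊆ A ∧ A ⊆ U ∩ closure (Set.range (fun (y : {f : X → ℝ // Continuous f})
                (g : {g : {f : X → ℝ // Continuous f} → ℝ // Continuous g}) => g.1 y))) →
    (∃ F : Set (Set ({φ : {g : {f : X → ℝ // Continuous f} → ℝ // Continuous g} → ℝ //
            Continuous φ} → ℝ)),
      F.Countable ∧
      ∀ x ∈ closure (Set.range (fun (y : {g : {f : X → ℝ // Continuous f} → ℝ // Continuous g})
              (φ : {φ : {g : {f : X → ℝ // Continuous f} → ℝ // Continuous g} → ℝ //
                Continuous φ}) => φ.1 y)),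
        ∃ K : Set ({φ : {g : {f : X → ℝ // Continuous f} → ℝ // Continuous g} → ℝ //
            Continuous φ} → ℝ),
          IsCompact K ∧ x ∈ K ∧
          K ⊆ closure (Set.range (fun (y : {g : {f : X → ℝ // Continuous f} → ℝ // Continuous g})
              (φ : {φ : {g : {f : X → ℝ // Continuous f} → ℝ // Continuous g} → ℝ //
                Continuous φ}) => φ.1 y)) ∧
          ∀ U : Set ({φ : {g : {f : X → ℝ // Continuous f} → ℝ // Continuous g} → ℝ //
              Continuous φ} → ℝ),
            IsOpen U → K ⊆ U →
              ∃ A ∈ F, K ⊆ A ∧ A ⊆ U ∩ closure (Set.range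
                (fun (y : {g : {f : X → ℝ // Continuous f} → ℝ // Continuous g})
                  (φ : {φ : {g : {f : X → ℝ // Continuous f} → ℝ // Continuous g} → ℝ //
                    Continuous φ}) => φ.1 y)))) := by
  intro h
  exact Pool.Agent.Work.MP_fbd347_gt.XXGood.levelTwo
    (h Pool.Agent.Work.MP_fbd347_gt.XX Pool.Agent.Work.MP_fbd347_gt.XXGood.levelOne)

end Pool.Agent.S14280
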