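import Pool.Statements.S14467
import Pool.Agent.Work.MP_216d61_lc_full.ALL

set_option autoImplicit false
open Pool Pool.MP_216d61_lc

namespace Pool.Agent.S14467

/-- There is an algorithm that, given a non-negative rational, decides whether it equals the limiting edge density (the infimum of c making n-vertex members eventually have at most cn edges) of some proper minor-closed class of finite graphs. -/
theorem result :
  ComputablePred (fun p : ℕ × ℕ =>
    ∃ F : (n : ℕ) → Set (SimpleGraph (Fin n)),
      (∀ (m k : ℕ) (H : SimpleGraph (Fin m)) (G : SimpleGraph (Fin k)), G ∈ F k →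
        (∃ f : Fin m → Set (Fin k),
          (∀ i j, i ≠ j → Disjoint (f i) (f j)) ∧
          (∀ i, (G.induce (f i)).Connected) ∧
          (∀ i j, H.Adj i j → ∃ a ∈ f i, ∃ b ∈ f j, G.Adj a b)) → H ∈ F m) ∧
      (∃ (n : ℕ) (G : SimpleGraph (Fin n)), G ∉ F n) ∧
      ((p.1 : ℝ) / ((p.2 : ℝ) + 1) =
        sInf {c : ℝ | 0 ≤ c ∧ ∀ᶠ n in Filter.atTop, ∀ G ∈ F n,
          (G.edgeSet.ncard : ℝ) ≤ c * n})) := by
  exact Pool.Agent.Work.MP_216d61_lc.main_all

end Pool.Agent.S14467
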