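import Pool.Statements.S15251
import Pool.Agent.Work.MP_b29fea_lc.Main

set_option autoImplicit false
open Pool Pool.MP_b29fea_lc

namespace Pool.Agent.S15251

/-- For j≥1, k≥2 and η a limit ordinal, every graph on ω^(η+jk) has an independent set of order type ω^(η+j) or a matching from A to B with A entirely below B and A of order type ω^k. -/
theorem result :
    ∀ j k : ℕ, 0 < j → 2 ≤ k → ∀ η : Ordinal.{0}, Order.IsSuccLimit η →
      ∀ G : SimpleGraph Ordinal.{0},
        (∃ S : Set Ordinal.{0},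
            S ⊆ Set.Iio (Ordinal.omega0 ^ (η + ((j * k : ℕ) : Ordinal.{0}))) ∧
            Nonempty (S ≃o Set.Iio (Ordinal.omega0 ^ (η + ((j : ℕ) : Ordinal.{0})))) ∧
            S.Pairwise (fun x y => ¬ G.Adj x y)) ∨
        (∃ A B : Set Ordinal.{0},
            A ⊆ Set.Iio (Ordinal.omega0 ^ (η + ((j * k : ℕ) : Ordinal.{0}))) ∧
            B ⊆ Set.Iio (Ordinal.omega0 ^ (η + ((j * k : ℕ) : Ordinal.{0}))) ∧
            (∀ a ∈ A, ∀ b ∈ B, a < b) ∧
            Nonempty (A ≃o Set.Iio (Ordinal.omega0 ^ ((k : ℕ) : Ordinal.{0}))) ∧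
            ∃ f : A ≃ B, ∀ a : A, G.Adj (a : Ordinal.{0}) (f a : Ordinal.{0})) := by
  intro j k _ hk η hη G
  exact Pool.Agent.Work.MP_b29fea_lc.main j k (by omega) η hη G

end Pool.Agent.S15251
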