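import Pool.Statements.S15806
import Pool.Agent.Work.MP_dd0251_mp.Final

set_option autoImplicit false
open Pool Pool.MP_dd0251_mp

namespace Pool.Agent.S15806

/-- The negation of the preceding statement: For every bounded Jacobi matrix with positive off-diagonal entries, the set where its spectral measure has positive Lebesgue density equals, up to a null set, the set of energies E where the transfer matrices stay bounded along a subsequence. -/
theorem result :
    ¬ (∀ (a b : ℕ → ℝ), (∀ n, 0 < a n) → (∃ C : ℝ, ∀ n, |a n| ≤ C ∧ |b n| ≤ C) →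
    ∀ μ : MeasureTheory.Measure ℝ,
      (∀ k : ℕ, MeasureTheory.Integrable (fun x : ℝ => x ^ k) μ) →
      (∀ k : ℕ, ∫ x, x ^ k ∂μ =
          ((Matrix.of fun i j : Fin (k + 1) =>
              if i.val = j.val then b i.val
              else if j.val = i.val + 1 then a i.val
              else if i.val = j.val + 1 then a j.val
              else (0 : ℝ)) ^ k) 0 0) →
      MeasureTheory.volume
        (symmDiff {E : ℝ | 0 < μ.rnDeriv MeasureTheory.volume E}
          {E : ℝ | ∃ C : ℝ, ∀ N : ℕ, ∃ n ≥ N, ∀ i j : Fin 2,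
            |(((List.range n).reverse.map
                (fun m => (a m)⁻¹ • !![E - b m, -1; a m ^ 2, 0])).prod) i j| ≤ C}) = 0) := by
  intro hall
  obtain ⟨b, hb, hret, hgrow⟩ := Pool.Agent.Work.MP_dd0251_mp.exists_potential
  have hb4 : ∀ m, |b m| ≤ 4 := fun m => abs_le.2 ⟨by linarith [(hb m).1], by linarith [(hb m).2]⟩
  obtain ⟨μ, hμ, hint, hmom, hint2, hone⟩ :=
    Pool.Agent.Work.MP_dd0251_mp.exists_spectral b 4 (by norm_num) hb4
  have hzero := hall (fun _ => 1) b (fun _ => one_pos)
    ⟨4, fun n => ⟨by norm_num, hb4 n⟩⟩ μ hint hmom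
  have hno := Pool.Agent.Work.MP_dd0251_mp.no_ac b μ hint2 hone hgrow
  have hsub : Set.Icc (0:ℝ) 1 ⊆
      ({E : ℝ | 0 < μ.rnDeriv MeasureTheory.volume E} ∩ Set.Icc 0 1) ∪
      (symmDiff {E : ℝ | 0 < μ.rnDeriv MeasureTheory.volume E}
          {E : ℝ | ∃ C : ℝ, ∀ N : ℕ, ∃ n ≥ N, ∀ i j : Fin 2,
            |(((List.range n).reverse.map
                (fun m => ((fun _ : ℕ => (1:ℝ)) m)⁻¹ •
                  !![E - b m, -1; ((fun _ : ℕ => (1:ℝ)) m) ^ 2, 0])).prod) i j| ≤ C}) := by
    intro E hE
    by_cases hA : 0 < μ.rnDeriv MeasureTheory.volume E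
    · left; exact ⟨hA, hE⟩
    · right
      rw [Set.mem_symmDiff]
      right
      refine ⟨?_, hA⟩
      refine ⟨5, fun N => ?_⟩
      obtain ⟨m, hmN, h1, h2, h3, h4⟩ := hret E hE.1 hE.2 N
      refine ⟨m, hmN, fun i j => ?_⟩
      rw [Pool.Agent.Work.MP_dd0251_mp.transfer_eq]
      fin_cases i <;> fin_cases j
      · exact h1
      · exact h3
      · exact h2
      · exact h4
  have h1 : MeasureTheory.volume (Set.Icc (0:ℝ) 1) = 0 :=
    MeasureTheory.measure_mono_null hsub (MeasureTheory.measure_union_null hno hzero)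
  rw [Real.volume_Icc] at h1
  norm_num at h1

end Pool.Agent.S15806
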