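import Pool.Statements.S15888

set_option autoImplicit false
open Pool Pool.MP_0426f4_nt

namespace Pool.Agent.S15888

/-- All elements are below `2^l/4`, and no two elements differ by `2^j` up to an error
below `4^j/2^N`, for every `j < l`. -/
def Good (N l : ℕ) (B : Finset ℕ) : Prop :=
  (∀ x ∈ B, 4 * x < 2 ^ l) ∧
    ∀ x ∈ B, ∀ y ∈ B, ∀ j < l, (4 : ℤ) ^ j ≤ |(y : ℤ) - x - 2 ^ j| * 2 ^ N

theorem not_three_dvd_two_pow (k : ℕ) : ¬ (3 : ℤ) ∣ 2 ^ k := by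
  intro h
  have h3 : Prime (3 : ℤ) := Int.prime_three
  have := h3.dvd_of_dvd_pow h
  omega

theorem step (N l l' : ℕ) (B : Finset ℕ) (hB : Good N l B) (hl : l + 4 ≤ l')
    (hl' : 2 * l' ≤ N + l + 1) :
    ∃ B' : Finset ℕ, Good N l' B' ∧ B'.card = B.card * 2 ^ (l' - l - 4) := by
  classical
  obtain ⟨hsmall, hdiff⟩ := hB
  set Y : ℕ := 2 ^ (l' - l - 4) with hY
  have hYl : 2 ^ l * Y * 16 = 2 ^ l' := by
    rw [hY, ← pow_add, show (16 : ℕ) = 2 ^ 4 by norm_num, ← pow_add]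
    congr 1; omega
  let f : ℕ × ℕ → ℕ := fun p => 3 * 2 ^ l * p.1 + p.2
  have hP : (0 : ℕ) < 2 ^ l := by positivity
  refine ⟨(Finset.range Y ×ˢ B).image f, ⟨?_, ?_⟩, ?_⟩
  · intro x hx
    simp only [Finset.mem_image, Finset.mem_product, Finset.mem_range, Prod.exists, f] at hx
    obtain ⟨y, b, ⟨hy, hb⟩, rfl⟩ := hx
    have h1 := hsmall b hb
    have h2 : 2 ^ l * (y + 1) ≤ 2 ^ l * Y := Nat.mul_le_mul_left _ hy
    nlinarith
  · intro x hx x' hx' j hj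
    simp only [Finset.mem_image, Finset.mem_product, Finset.mem_range, Prod.exists, f] at hx hx'
    obtain ⟨y, b, ⟨hy, hb⟩, rfl⟩ := hx
    obtain ⟨y', b', ⟨hy', hb'⟩, rfl⟩ := hx'
    have h1 : (4 : ℤ) * b < 2 ^ l := by exact_mod_cast hsmall b hb
    have h1' : (4 : ℤ) * b' < 2 ^ l := by exact_mod_cast hsmall b' hb'
    have hb0 : (0 : ℤ) ≤ b := by positivity
    have hb0' : (0 : ℤ) ≤ b' := by positivity
    push_cast
    by_cases hjl : j < l
    · by_cases hyy : y = y'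
      · subst hyy
        have := hdiff b hb b' hb' j hjl
        have h3 : (3 * 2 ^ l * (y : ℤ) + b' - (3 * 2 ^ l * y + b) - 2 ^ j)
            = (b' : ℤ) - b - 2 ^ j := by
          ring
        rw [h3]; exact this
      · -- different blocks: the difference is large
        have hj2 : (2 : ℤ) ^ j * 2 ≤ 2 ^ l := by
          rw [← pow_succ]; exact pow_le_pow_right₀ (by norm_num) hjl
        have hj0 : (0 : ℤ) < 2 ^ j := by positivity
        have habs : (2 : ℤ) ^ l ≤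
            |3 * 2 ^ l * (y' : ℤ) + b' - (3 * 2 ^ l * y + b) - 2 ^ j| := by
          have h4 : (y' : ℤ) - y ≤ -1 ∨ 1 ≤ (y' : ℤ) - y := by omega
          have hPl : (0 : ℤ) < 2 ^ l := by positivity
          rcases h4 with h4 | h4
          · have h5 : (2 : ℤ) ^ l * ((y' : ℤ) - y) ≤ 2 ^ l * (-1) := by
              exact mul_le_mul_of_nonneg_left h4 hPl.le
            rw [le_abs]; right; nlinarith
          · have h5 : (2 : ℤ) ^ l * 1 ≤ 2 ^ l * ((y' : ℤ) - y) := by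
              exact mul_le_mul_of_nonneg_left h4 hPl.le
            rw [le_abs]; left; nlinarith
        calc (4 : ℤ) ^ j = 2 ^ (2 * j) := by rw [pow_mul]; norm_num
          _ ≤ 2 ^ (l + N) := pow_le_pow_right₀ (by norm_num) (by omega)
          _ = 2 ^ l * 2 ^ N := by rw [pow_add]
          _ ≤ _ := mul_le_mul_of_nonneg_right habs (by positivity)
    · push Not at hjl
      have hPl : (0 : ℤ) < 2 ^ l := by positivity
      have hjsplit : (2 : ℤ) ^ j = 2 ^ l * 2 ^ (j - l) := by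
        rw [← pow_add]; congr 1; omega
      have hne : (3 * ((y' : ℤ) - y) - 2 ^ (j - l)) ≠ 0 := by
        intro h0
        exact not_three_dvd_two_pow (j - l) ⟨(y' : ℤ) - y, by linarith⟩
      have habs : (3 : ℤ) * 2 ^ l ≤
          4 * |3 * 2 ^ l * (y' : ℤ) + b' - (3 * 2 ^ l * y + b) - 2 ^ j| := by
        have h6 : 3 * 2 ^ l * (y' : ℤ) + b' - (3 * 2 ^ l * y + b) - 2 ^ j =
            2 ^ l * (3 * ((y' : ℤ) - y) - 2 ^ (j - l)) + (b' - b) := by
          rw [hjsplit]; ring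
        rw [h6]
        have h4 : (3 * ((y' : ℤ) - y) - 2 ^ (j - l)) ≤ -1 ∨
            1 ≤ (3 * ((y' : ℤ) - y) - 2 ^ (j - l)) := by
          omega
        rcases h4 with h4 | h4
        · have h5 := mul_le_mul_of_nonneg_left h4 hPl.le
          have : 3 * (2:ℤ) ^ l ≤
              4 * (-(2 ^ l * (3 * ((y' : ℤ) - y) - 2 ^ (j - l)) + (b' - b))) := by
            linarith
          exact this.trans (mul_le_mul_of_nonneg_left (neg_le_abs _) (by norm_num))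
        · have h5 := mul_le_mul_of_nonneg_left h4 hPl.le
          have : 3 * (2:ℤ) ^ l ≤
              4 * (2 ^ l * (3 * ((y' : ℤ) - y) - 2 ^ (j - l)) + (b' - b)) := by
            linarith
          exact this.trans (mul_le_mul_of_nonneg_left (le_abs_self _) (by norm_num))
      have h7 : (4 : ℤ) ^ j * 2 ≤ 2 ^ l * 2 ^ N := by
        calc (4 : ℤ) ^ j * 2 = 2 ^ (2 * j + 1) := by rw [pow_succ, pow_mul]; norm_num
          _ ≤ 2 ^ (l + N) := pow_le_pow_right₀ (by norm_num) (by omega)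
          _ = 2 ^ l * 2 ^ N := by rw [pow_add]
      have hN : (0 : ℤ) < 2 ^ N := by positivity
      have h8 := mul_le_mul_of_nonneg_right habs hN.le
      nlinarith
  · rw [Finset.card_image_of_injOn, Finset.card_product, Finset.card_range, mul_comm]
    rintro ⟨y, b⟩ h ⟨y', b'⟩ h' heq
    simp only [Finset.coe_product, Set.mem_prod, Finset.mem_coe, Finset.mem_range] at h h'
    simp only [f] at heq
    have h1 := hsmall b h.2
    have h1' := hsmall b' h'.2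
    have hyy : y = y' := by
      by_contra hne
      rcases Nat.lt_or_gt_of_ne hne with hlt | hlt
      · have : 2 ^ l * (y + 1) ≤ 2 ^ l * y' := Nat.mul_le_mul_left _ hlt
        nlinarith
      · have : 2 ^ l * (y' + 1) ≤ 2 ^ l * y := Nat.mul_le_mul_left _ hlt
        nlinarith
    subst hyy
    have : b = b' := by omega
    rw [this]

/-- Iterating `step`, with `N - l` halving each time. -/
theorem iterate (L : ℕ) (i : ℕ) (hi : i ≤ L) :
    ∃ B : Finset ℕ, Good (8 * 2 ^ L) (8 * 2 ^ L - 8 * 2 ^ (L - i)) B ∧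
      B.card * 16 ^ i = 2 ^ (8 * 2 ^ L - 8 * 2 ^ (L - i)) := by
  induction i with
  | zero =>
    refine ⟨{0}, ⟨?_, ?_⟩, ?_⟩
    · intro x hx; simp at hx; subst hx; positivity
    · intro x _ y _ j hj; simp at hj
    · simp
  | succ i ih =>
    obtain ⟨B, hB, hcard⟩ := ih (by omega)
    have e1 : 2 ^ (L - i) = 2 * 2 ^ (L - (i + 1)) := by
      rw [← pow_succ']; congr 1; omega
    have e2 : 2 ^ (L - i) ≤ 2 ^ L := Nat.pow_le_pow_right (by norm_num) (by omega)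
    have e3 : 1 ≤ 2 ^ (L - (i + 1)) := Nat.one_le_two_pow
    obtain ⟨B', hB', hc'⟩ := step (8 * 2 ^ L) (8 * 2 ^ L - 8 * 2 ^ (L - i))
      (8 * 2 ^ L - 8 * 2 ^ (L - (i + 1))) B hB (by omega) (by omega)
    refine ⟨B', hB', ?_⟩
    rw [hc', pow_succ, show B.card * 2 ^ (8 * 2 ^ L - 8 * 2 ^ (L - (i + 1)) -
        (8 * 2 ^ L - 8 * 2 ^ (L - i)) - 4) * (16 ^ i * 16) =
      (B.card * 16 ^ i) * (2 ^ (8 * 2 ^ L - 8 * 2 ^ (L - (i + 1)) -
        (8 * 2 ^ L - 8 * 2 ^ (L - i)) - 4) * 2 ^ 4) by ring,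
      hcard, ← pow_add, ← pow_add]
    congr 1; omega

/-- For `n = 2^(8*2^L)` there is an admissible-progression-free set (`t = 3`) of density
`1/(256*16^L)`. -/
theorem exists_set (L : ℕ) :
    ∃ A : Finset ℕ, A ⊆ Finset.Icc 1 (2 ^ (8 * 2 ^ L)) ∧
      (∀ j w : ℕ, w * 2 ^ (8 * 2 ^ L) < (2 ^ j) ^ 2 →
        ¬ ∃ b : ℕ, ∀ i ∈ Finset.Icc 1 (3 - 1),
          ∃ a ∈ A, b + i * 2 ^ j ≤ a ∧ a ≤ b + i * 2 ^ j + w) ∧
      A.card * (256 * 16 ^ L) = 2 ^ (8 * 2 ^ L) := by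
  classical
  obtain ⟨B, ⟨hsmall, hdiff⟩, hcard⟩ := iterate L L le_rfl
  set N := 8 * 2 ^ L with hN
  have hN8 : 8 ≤ N := by
    have : 1 ≤ 2 ^ L := Nat.one_le_two_pow
    omega
  rw [Nat.sub_self, pow_zero, mul_one] at hsmall hdiff hcard
  have h256 : 2 ^ N = 2 ^ (N - 8) * 256 := by
    rw [show (256 : ℕ) = 2 ^ 8 by norm_num, ← pow_add]; congr 1; omega
  have hpos : 0 < 2 ^ (N - 8) := by positivity
  refine ⟨B.image (· + 1), ?_, ?_, ?_⟩
  · intro a ha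
    simp only [Finset.mem_image] at ha
    obtain ⟨x, hx, rfl⟩ := ha
    have := hsmall x hx
    simp only [Finset.mem_Icc]
    omega
  · rintro j w hw ⟨b, hb⟩
    obtain ⟨a₁, ha₁, h1, h1'⟩ := hb 1 (by simp)
    obtain ⟨a₂, ha₂, h2, h2'⟩ := hb 2 (by simp)
    simp only [Finset.mem_image] at ha₁ ha₂
    obtain ⟨x, hx, rfl⟩ := ha₁
    obtain ⟨y, hy, rfl⟩ := ha₂
    by_cases hj : j < N - 8
    · have h3 := hdiff x hx y hy j hj
      have h4 : |(y : ℤ) - x - 2 ^ j| ≤ w := by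
        have e1 : ((b : ℤ) + 1 * 2 ^ j ≤ x + 1) := by exact_mod_cast h1
        have e2 : ((x : ℤ) + 1 ≤ b + 1 * 2 ^ j + w) := by exact_mod_cast h1'
        have e3 : ((b : ℤ) + 2 * 2 ^ j ≤ y + 1) := by exact_mod_cast h2
        have e4 : ((y : ℤ) + 1 ≤ b + 2 * 2 ^ j + w) := by exact_mod_cast h2'
        rw [abs_le]; constructor <;> linarith
      have h5 : (w : ℤ) * 2 ^ N < (2 ^ j) ^ 2 := by exact_mod_cast hw
      have h6 : ((2 : ℤ) ^ j) ^ 2 = 4 ^ j := by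
        rw [← pow_mul, mul_comm, pow_mul]; norm_num
      have h7 : |(y : ℤ) - x - 2 ^ j| * 2 ^ N ≤ w * 2 ^ N :=
        mul_le_mul_of_nonneg_right h4 (by positivity)
      linarith
    · have h3 := hsmall y hy
      have h4 : 2 ^ (N - 8) ≤ 2 ^ j := Nat.pow_le_pow_right (by norm_num) (by omega)
      omega
  · rw [Finset.card_image_of_injective _ (fun a b h => by simpa using h), h256, ← hcard]
    ring

/-- For each t ≥ 3 and all large n, every A ⊆ [1,n] that meets no blocks b+id..b+id+w (i=1..t−1) simultaneously, for d a power of 2 and wn<d², has (∣A∣/n)·(log n)^(log log n) < 1. -/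
theorem result :
    ¬ (∀ t : ℕ, 3 ≤ t → ∃ n₀ : ℕ, ∀ n : ℕ, n₀ ≤ n → ∀ A : Finset ℕ, A ⊆ Finset.Icc 1 n →
      (∀ j w : ℕ, w * n < (2 ^ j) ^ 2 →
        ¬ ∃ b : ℕ, ∀ i ∈ Finset.Icc 1 (t - 1),
          ∃ a ∈ A, b + i * 2 ^ j ≤ a ∧ a ≤ b + i * 2 ^ j + w) →
      (A.card : ℝ) / n * Real.log n ^ Real.log (Real.log n) < 1) := by
  intro h
  obtain ⟨n₀, hn₀⟩ := h 3 le_rfl
  set L := max 16 n₀ with hL
  have hL16 : 16 ≤ L := le_max_left _ _
  have hLn : n₀ ≤ L := le_max_right _ _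
  obtain ⟨A, hA1, hA2, hA3⟩ := exists_set L
  have hbig : n₀ ≤ 2 ^ (8 * 2 ^ L) := by
    have h1 : L < 2 ^ L := Nat.lt_two_pow_self
    have h2 : 8 * 2 ^ L < 2 ^ (8 * 2 ^ L) := Nat.lt_two_pow_self
    omega
  have key := hn₀ (2 ^ (8 * 2 ^ L)) hbig A hA1 hA2
  -- lower bound for the logarithm
  have hlog2 : (1 / 2 : ℝ) ≤ Real.log 2 := by
    have := Real.log_two_gt_d9
    linarith
  have hlogn : (4 : ℝ) * 2 ^ L ≤ Real.log ((2 ^ (8 * 2 ^ L) : ℕ) : ℝ) := by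
    push_cast
    rw [Real.log_pow]
    push_cast
    have : (0 : ℝ) < 2 ^ L := by positivity
    nlinarith
  have h1L : (1 : ℝ) ≤ 4 * 2 ^ L := by
    have : (1 : ℝ) ≤ 2 ^ L := one_le_pow₀ (by norm_num)
    linarith
  have hloglog : (8 : ℝ) ≤ Real.log (Real.log ((2 ^ (8 * 2 ^ L) : ℕ) : ℝ)) := by
    have h2 : Real.log ((2 : ℝ) ^ L) ≤ Real.log (Real.log ((2 ^ (8 * 2 ^ L) : ℕ) : ℝ)) := by
      apply Real.log_le_log (by positivity)
      have : (0 : ℝ) < 2 ^ L := by positivity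
      linarith
    rw [Real.log_pow] at h2
    have h3 : (16 : ℝ) ≤ L := by exact_mod_cast hL16
    nlinarith
  have hpow : ((4 : ℝ) * 2 ^ L) ^ 8 ≤
      Real.log ((2 ^ (8 * 2 ^ L) : ℕ) : ℝ) ^ Real.log (Real.log ((2 ^ (8 * 2 ^ L) : ℕ) : ℝ)) := by
    calc ((4 : ℝ) * 2 ^ L) ^ 8 ≤ (Real.log ((2 ^ (8 * 2 ^ L) : ℕ) : ℝ)) ^ 8 := by
          gcongr
      _ = (Real.log ((2 ^ (8 * 2 ^ L) : ℕ) : ℝ)) ^ (8 : ℝ) := by
          rw [show (8 : ℝ) = ((8 : ℕ) : ℝ) by norm_num, Real.rpow_natCast]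
      _ ≤ _ := Real.rpow_le_rpow_of_exponent_le (h1L.trans hlogn) hloglog
  have hdens : (A.card : ℝ) / ((2 ^ (8 * 2 ^ L) : ℕ) : ℝ) = 1 / (256 * 16 ^ L) := by
    have h4 : (A.card : ℝ) * (256 * 16 ^ L) = ((2 ^ (8 * 2 ^ L) : ℕ) : ℝ) := by
      exact_mod_cast hA3
    rw [← h4]
    have h5 : (0 : ℝ) < 256 * 16 ^ L := by positivity
    have h6 : (A.card : ℝ) ≠ 0 := by
      intro h0
      rw [h0] at h4
      have : (0 : ℝ) < ((2 ^ (8 * 2 ^ L) : ℕ) : ℝ) := by positivity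
      linarith
    field_simp
  rw [hdens] at key
  have h16 : ((4 : ℝ) * 2 ^ L) ^ 8 = 65536 * (16 ^ L * 16 ^ L) := by
    rw [mul_pow, ← pow_mul, mul_comm L 8, pow_mul, ← mul_pow]; norm_num
  have h16' : (1 : ℝ) ≤ 16 ^ L := one_le_pow₀ (by norm_num)
  rw [h16] at hpow
  have h7 : (1 : ℝ) ≤ 1 / (256 * 16 ^ L) *
      (Real.log ((2 ^ (8 * 2 ^ L) : ℕ) : ℝ) ^
        Real.log (Real.log ((2 ^ (8 * 2 ^ L) : ℕ) : ℝ))) := by
    rw [one_div, inv_mul_eq_div, le_div_iff₀ (by positivity)]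
    nlinarith
  linarith

end Pool.Agent.S15888
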