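import Pool.Statements.S16173
import Pool.Agent.Work.MP_18694c_nt.Bound

set_option autoImplicit false
open N97cf5353
open Filter
open Pool Pool.MP_18694c_nt

namespace Pool.Agent.S16173

/-- An elementary growth comparison. -/
lemma eventually_growth : ∀ᶠ x : ℝ in atTop,
    (5 + Real.sqrt x * Real.log (3 * x) + 2 * Real.log x) * Real.log x ≤ x := by
  have h1 : ∀ᶠ x : ℝ in atTop, Real.log x ≤ x ^ ((1 : ℝ) / 8) := by
    have := (isLittleO_log_rpow_atTop (show (0 : ℝ) < 1 / 8 by norm_num)).bound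
      (show (0 : ℝ) < 1 by norm_num)
    filter_upwards [this, eventually_ge_atTop (1 : ℝ)] with x hx hx1
    rw [Real.norm_of_nonneg (Real.log_nonneg hx1),
      Real.norm_of_nonneg (Real.rpow_nonneg (by linarith) _)] at hx
    linarith
  filter_upwards [h1, eventually_ge_atTop ((3 : ℝ) ^ 8)] with x hx hx1
  have hx0 : (0 : ℝ) < x := by
    have : (0 : ℝ) < 3 ^ 8 := by norm_num
    linarith
  set y := x ^ ((1 : ℝ) / 8) with hy
  have hy8 : x = y ^ 8 := by
    rw [hy, ← Real.rpow_natCast, ← Real.rpow_mul hx0.le]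
    norm_num
  have hy3 : 3 ≤ y := by
    have h2 : (3 : ℝ) ^ 8 ≤ y ^ 8 := by rw [← hy8]; exact hx1
    have hy0 : 0 ≤ y := by positivity
    exact le_of_pow_le_pow_left₀ (by norm_num) hy0 h2
  have hsq : Real.sqrt x = y ^ 4 := by
    rw [hy8, show y ^ 8 = (y ^ 4) ^ 2 by ring]
    exact Real.sqrt_sq (by positivity)
  have hlog0 : 0 ≤ Real.log x := Real.log_nonneg (by nlinarith)
  have hlog3 : Real.log (3 * x) ≤ 2 * y := by
    rw [Real.log_mul (by norm_num) hx0.ne']
    have : Real.log 3 ≤ 3 - 1 := Real.log_le_sub_one_of_pos (by norm_num)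
    linarith
  have h5 : 5 + Real.sqrt x * Real.log (3 * x) + 2 * Real.log x ≤ y ^ 7 := by
    rw [hsq]
    have a1 : y ^ 4 * Real.log (3 * x) ≤ y ^ 4 * (2 * y) :=
      mul_le_mul_of_nonneg_left hlog3 (by positivity)
    have a2 : (3 : ℝ) ^ 2 ≤ y ^ 2 := pow_le_pow_left₀ (by norm_num) hy3 2
    have a3 : 0 < y ^ 5 := by positivity
    have a4 : y ^ 7 = y ^ 5 * y ^ 2 := by ring
    have a5 : y ^ 5 * 9 ≤ y ^ 5 * y ^ 2 := by
      apply mul_le_mul_of_nonneg_left _ a3.le
      linarith
    have a6 : y ≤ y ^ 5 := by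
      calc y = y ^ 1 := by ring
        _ ≤ y ^ 5 := pow_le_pow_right₀ (by linarith) (by norm_num)
    have a7 : 5 ≤ 2 * y ^ 5 := by linarith
    have a8 : y ^ 4 * (2 * y) = 2 * y ^ 5 := by ring
    linarith
  calc (5 + Real.sqrt x * Real.log (3 * x) + 2 * Real.log x) * Real.log x
      ≤ y ^ 7 * y := by
        apply mul_le_mul h5 hx hlog0 (by positivity)
    _ = x := by rw [hy8]; ring

/-- ∃ c>0, ∀ ε>0, for all sufficiently large n, (least k≥2 with gcd(k^n−1, 2^n−1)=1) < exp(n^((c+ε)/log log n)) (natural log). -/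
theorem result :
    ∃ c > (0 : ℝ), ∀ ε > (0 : ℝ), ∀ᶠ n : ℕ in atTop, (K n : ℝ) < Real.exp ((n : ℝ) ^ ((c + ε) / Real.log (Real.log (n : ℝ)))) := by
  refine ⟨3, by norm_num, fun ε hε => ?_⟩
  have hlogtend : Tendsto (fun n : ℕ => Real.log (n : ℝ)) atTop atTop :=
    Real.tendsto_log_atTop.comp tendsto_natCast_atTop_atTop
  filter_upwards [hlogtend.eventually eventually_growth, eventually_ge_atTop 3,
    hlogtend.eventually (eventually_gt_atTop (1 : ℝ))] with n hgrow hn3 hl1
  set l := Real.log (n : ℝ) with hl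
  set lam := Real.log l with hlam
  have hlam0 : 0 < lam := Real.log_pos hl1
  have hn0 : (0 : ℝ) < n := by positivity
  have hK := Pool.Agent.Work.MP_18694c_nt.K_le n hn3
  have hD := Pool.Agent.Work.MP_18694c_nt.card_divisors_le n hn3 hl1
  rw [← hl] at hK hD
  rw [← hlam] at hD
  refine lt_of_le_of_lt hK ?_
  apply Real.exp_lt_exp.mpr
  have hτ0 : (0 : ℝ) < (n.divisors.card : ℝ) := by
    have : 1 ≤ n.divisors.card :=
      Finset.card_pos.mpr ⟨1, Nat.one_mem_divisors.mpr (by omega)⟩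
    exact_mod_cast this
  have hl0 : 0 < l := by linarith
  have hpos : 0 < 70 * (n.divisors.card : ℝ) * l ^ 2 := by positivity
  rw [Real.rpow_def_of_pos hn0, ← hl]
  rw [← Real.log_lt_iff_lt_exp hpos]
  have e1 : Real.log (70 * (n.divisors.card : ℝ) * l ^ 2)
      = Real.log 70 + Real.log (n.divisors.card : ℝ) + 2 * lam := by
    rw [Real.log_mul (by positivity) (by positivity), Real.log_mul (by norm_num) (by positivity),
      Real.log_pow, hlam]
    push_cast
    ring
  have e2 : Real.log 70 ≤ 5 := by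
    rw [Real.log_le_iff_le_exp (by norm_num)]
    have h3 : Real.exp 5 = (Real.exp 1) ^ 5 := by rw [← Real.exp_nat_mul]; norm_num
    have h4 := Real.exp_one_gt_d9
    rw [h3]
    calc (70 : ℝ) ≤ 2.7 ^ 5 := by norm_num
      _ ≤ (Real.exp 1) ^ 5 := pow_le_pow_left₀ (by norm_num) (by linarith) 5
  have e3 : 5 + Real.sqrt l * Real.log (3 * l) + 2 * lam ≤ l / lam := by
    rw [le_div_iff₀ hlam0]
    exact hgrow
  have e4 : 2 * Real.log 2 * l / lam ≤ 2 * (l / lam) := by
    have h2 : Real.log 2 ≤ 1 := by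
      have := Real.log_two_lt_d9
      linarith
    have h3 : 0 ≤ l / lam := by positivity
    have h4 : 2 * Real.log 2 * l / lam = 2 * Real.log 2 * (l / lam) := by ring
    rw [h4]
    apply mul_le_mul_of_nonneg_right _ h3
    linarith
  have e5 : 3 * (l / lam) < l * ((3 + ε) / lam) := by
    have : l * ((3 + ε) / lam) = 3 * (l / lam) + ε * (l / lam) := by ring
    rw [this]
    have h3 : 0 < ε * (l / lam) := by positivity
    linarith
  rw [e1]
  linarith

end Pool.Agent.S16173
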