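import Pool.Statements.S16557
import Pool.Agent.Work.MP_35f602_nt.End

set_option autoImplicit false
open Pool Pool.MP_35f602_nt

namespace Pool.Agent.S16557

/-- the congruences forced on `a` and `b` modulo powers of two -/
theorem normal {a b m : ℤ} (h : 32 * m - 1 = 4 * a ^ 2 + 27 * b ^ 2) :
    (∃ a' : ℤ, a = 1 + 4 * a' ∨ -a = 1 + 4 * a') ∧
    (∃ b' : ℤ, b = 1 + 16 * b' ∨ -b = 1 + 16 * b') := by
  have key : ∀ x y : ZMod 32, -1 = 4 * x ^ 2 + 27 * y ^ 2 →
      (y = 1 ∨ y = 15 ∨ y = 17 ∨ y = 31) ∧ (8 * x = 8 ∨ 8 * x = 24) := by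
    decide +kernel
  have h32 : (32 : ZMod 32) = 0 := by decide
  have hc := congrArg (fun x : ℤ => (x : ZMod 32)) h
  push_cast at hc
  rw [h32, zero_mul, zero_sub] at hc
  obtain ⟨hb, ha⟩ := key _ _ hc
  have cast : ∀ x y : ℤ, ((x : ℤ) : ZMod 32) = (y : ZMod 32) → (32 : ℤ) ∣ x - y := by
    intro x y hxy
    exact_mod_cast (ZMod.intCast_eq_intCast_iff_dvd_sub y x 32).1 hxy.symm
  constructor
  · rcases ha with ha | ha
    · have := cast (8 * a) 8 (by push_cast; exact ha)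
      exact ⟨(a - 1) / 4, Or.inl (by omega)⟩
    · have := cast (8 * a) 24 (by push_cast; exact ha)
      exact ⟨(-a - 1) / 4, Or.inr (by omega)⟩
  · rcases hb with hb | hb | hb | hb
    · have := cast b 1 (by push_cast; exact hb)
      exact ⟨(b - 1) / 16, Or.inl (by omega)⟩
    · have := cast b 15 (by push_cast; exact hb)
      exact ⟨(-b - 1) / 16, Or.inr (by omega)⟩
    · have := cast b 17 (by push_cast; exact hb)
      exact ⟨(b - 1) / 16, Or.inl (by omega)⟩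
    · have := cast b 31 (by push_cast; exact hb)
      exact ⟨(-b - 1) / 16, Or.inr (by omega)⟩

theorem jacobi_eval {a a' : ℤ} (h : a = 1 + 4 * a' ∨ -a = 1 + 4 * a') :
    jacobiSym 2 a.natAbs = if Even a' then 1 else -1 := by
  have hodd : Odd a.natAbs := by
    rw [Int.natAbs_odd]
    rcases h with h | h
    · exact ⟨2 * a', by omega⟩
    · exact ⟨-2 * a' - 1, by omega⟩
  rw [jacobiSym.at_two hodd, ZMod.χ₈_nat_eq_if_mod_eight]
  have h1 : a.natAbs % 2 ≠ 0 := by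
    rw [Nat.odd_iff] at hodd; omega
  rw [if_neg h1]
  by_cases ha : Even a'
  · rw [if_pos ha, if_pos]
    obtain ⟨k, hk⟩ := ha
    omega
  · rw [if_neg ha, if_neg]
    obtain ⟨k, hk⟩ := Int.not_even_iff_odd.1 ha
    omega

/-- For p at least 3 with 2^p-1 prime, Lucas–Lehmer terms S_1=4, S_{k+1}=S_k^2-2, and any integers a,b with 2^p-1=4a^2+27b^2, S_{p-2} is congruent to (2/a)·2^((p+1)/2) modulo 2^p-1. -/
theorem result :
    ∀ p : ℕ, 3 ≤ p → Nat.Prime (mersenne p) →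
      ∀ S : ℕ → ℤ, S 1 = 4 → (∀ k : ℕ, 1 ≤ k → S (k + 1) = S k ^ 2 - 2) →
        ∀ a b : ℤ, (mersenne p : ℤ) = 4 * a ^ 2 + 27 * b ^ 2 →
          S (p - 2) ≡ jacobiSym 2 a.natAbs * 2 ^ ((p + 1) / 2) [ZMOD (mersenne p : ℤ)] := by
  intro p hp hprime S hS1 hSs a b hab
  have hpp : p.Prime := (Nat.prime_of_pow_sub_one_prime (a := 2) (by omega) hprime).2
  have hp3 : p ≠ 3 := by
    rintro rfl
    have h7 : (mersenne 3 : ℤ) = 7 := by norm_num [mersenne]
    rw [h7] at hab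
    have hb : b = 0 := by
      by_contra hb
      have : 1 ≤ b ^ 2 := by
        have := sq_pos_of_ne_zero hb
        omega
      nlinarith [sq_nonneg a]
    subst hb
    have : 4 * a ^ 2 = 7 := by linarith
    omega
  have hp4 : p ≠ 4 := by
    rintro rfl
    norm_num at hpp
  have hp5 : 5 ≤ p := by omega
  have hodd : Odd p := hpp.odd_of_ne_two (by omega)
  have : Fact (mersenne p).Prime := ⟨hprime⟩
  have h32 : (mersenne p : ℤ) = 32 * 2 ^ (p - 5) - 1 := by
    have h1 : mersenne p + 1 = 2 ^ p := by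
      rw [mersenne]; exact Nat.sub_add_cancel Nat.one_le_two_pow
    have h2 : 2 ^ p = 32 * 2 ^ (p - 5) := by
      rw [show (32 : ℕ) = 2 ^ 5 by norm_num, ← pow_add, Nat.add_sub_cancel' hp5]
    rw [h2] at h1
    have h3 : ((mersenne p + 1 : ℕ) : ℤ) = ((32 * 2 ^ (p - 5) : ℕ) : ℤ) := by rw [h1]
    push_cast at h3
    linarith
  obtain ⟨⟨a', ha⟩, ⟨b', hb⟩⟩ := normal (h32 ▸ hab)
  have ha2 : a ^ 2 = (1 + 4 * a') ^ 2 := by
    rcases ha with ha | ha
    · rw [← ha]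
    · rw [← ha, neg_sq]
  have hb2 : b ^ 2 = (1 + 16 * b') ^ 2 := by
    rcases hb with hb | hb
    · rw [← hb]
    · rw [← hb, neg_sq]
  rw [jacobi_eval ha]
  exact Pool.Agent.Work.MP_35f602_nt.core hp5 hodd S hS1 hSs (a' := a') (b' := b')
    (by rw [← ha2, ← hb2, hab])

end Pool.Agent.S16557
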