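import Pool.Statements.S17280
import Pool.Agent.Work.MP_684405_nt.Main

set_option autoImplicit false
open N871f2b45
open Pool Pool.MP_684405_nt

namespace Pool.Agent.S17280

/-- The negation of the preceding statement: ∃ C:ℕ, C>0 ∧ ∀ k, ∃ x:ℕ→ℕ, ∃ d>0, x 0..x(k-1) are squares (in ℕ) and x i + d ≤ x(i+1) ≤ x i + d + C for all i with i+1<k -/
theorem result :
    ¬ (∃ C : ℕ, 0 < C ∧ ∀ k : ℕ, ContainsQuasiProgression {n : ℕ | IsSquare n} C k) := by
  rintro ⟨C, hC, h⟩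
  obtain ⟨k, hk⟩ := Pool.Agent.Work.MP_684405_nt.no_long_quasi_progression C hC
  obtain ⟨x, d, hd, hsq, hqp⟩ := h k
  exact hk x d hd hsq hqp

end Pool.Agent.S17280
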