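import Pool.Statements.S19209
import Pool.Agent.Work.MP_240aa8_pr.Three
import Pool.Agent.Work.MP_240aa8_pr.Cycle

set_option autoImplicit false
open MeasureTheory ProbabilityTheory
open Pool Pool.MP_240aa8_pr

namespace Pool.Agent.S19209

/-- Whenever k≥1,q≥5 or k≥2,q≥4 or k≥3,q≥3, every n-cycle with n≥3 has a random proper q-coloring whose law is invariant under color permutations and whose restrictions to vertex sets more than k apart are independent. -/
theorem result :
    ∀ k q : ℕ, ((1 ≤ k ∧ 5 ≤ q) ∨ (2 ≤ k ∧ 4 ≤ q) ∨ (3 ≤ k ∧ 3 ≤ q)) →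
      ∀ n : ℕ, 3 ≤ n →
        ∃ μ : Measure (Fin n → Fin q), IsProbabilityMeasure μ ∧
          (∀ᵐ x ∂μ, ∀ i j : Fin n, (SimpleGraph.cycleGraph n).Adj i j → x i ≠ x j) ∧
          (∀ σ : Equiv.Perm (Fin q), μ.map (fun x : Fin n → Fin q => σ ∘ x) = μ) ∧
          (∀ A B : Set (Fin n),
            (∀ a ∈ A, ∀ b ∈ B, k < (SimpleGraph.cycleGraph n).dist a b) →
            IndepFun (fun x : Fin n → Fin q => fun a : A => x a)
              (fun x : Fin n → Fin q => fun b : B => x b) μ) := by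
  intro k q hkq n hn
  have h5 : ∀ q : ℕ, 5 ≤ q → ∃ w : (Fin n → Fin q) → ℝ, Pool.Agent.Work.MP_240aa8_pr.IsSymDep 1 n (Fin q) w := by
    intro q hq
    have hq' : (5 : ℝ) ≤ q := by exact_mod_cast hq
    haveI : Nonempty (Fin q) := ⟨⟨0, by omega⟩⟩
    have hs : Real.sqrt ((q : ℝ) ^ 2 - 4 * q) ^ 2 = (q : ℝ) ^ 2 - 4 * q :=
      Real.sq_sqrt (by nlinarith)
    set s := Real.sqrt ((q : ℝ) ^ 2 - 4 * q) with hsdef
    have hs0 : 0 < s := Real.sqrt_pos.2 (by nlinarith)
    have hs1 : s < q - 2 := by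
      by_contra hcon
      push Not at hcon
      nlinarith
    have hs2 : (q : ℝ) - 4 < s := by
      by_contra hcon
      push Not at hcon
      nlinarith
    have ht : 0 < ((q : ℝ) - 2 - s) / 2 := by linarith
    have ht1 : ((q : ℝ) - 2 - s) / 2 < 1 := by linarith
    refine ⟨_, Pool.Agent.Work.MP_240aa8_pr.cyc_isSymDep (K := Fin q) ht ht1 ?_ hn⟩
    rw [Fintype.card_fin]
    nlinarith
  rcases Nat.lt_or_ge q 5 with hlt | hge
  · rcases Nat.lt_or_ge q 4 with hlt' | hge'
    · -- `q = 3`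
      obtain rfl : q = 3 := by omega
      have hk : 3 ≤ k := by omega
      exact Pool.Agent.Work.MP_240aa8_pr.exists_measure
        ((Pool.Agent.Work.MP_240aa8_pr.three_isSymDep hn
          (Pool.Agent.Work.MP_240aa8_pr.four_isSymDep (K := Option (Fin 3)) (by simp) hn)).mono hk)
    · -- `q = 4`
      obtain rfl : q = 4 := by omega
      have hk : 1 ≤ k := by omega
      exact Pool.Agent.Work.MP_240aa8_pr.exists_measure
        ((Pool.Agent.Work.MP_240aa8_pr.four_isSymDep (K := Fin 4) (by simp) hn).mono hk)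
  · obtain ⟨w, hw⟩ := h5 q hge
    exact Pool.Agent.Work.MP_240aa8_pr.exists_measure (hw.mono (by omega))

end Pool.Agent.S19209
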