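import Pool.Statements.S19279
import Pool.Agent.Work.MP_3e81b4_47.Assembly_h89

set_option autoImplicit false
open Pool Pool.MP_3e81b4_pr

namespace Pool.Agent.S19279

/-- For every k at least 3 there is a real c such that for each ε>0 a uniform random graph on n vertices with floor((c−ε)n) edges is k-colourable with probability tending to 1, and with floor((c+ε)n) edges with probability tending to 0. -/
theorem result :
    ∀ k : ℕ, 3 ≤ k → ∃ c : ℝ, ∀ ε : ℝ, 0 < ε →
      Filter.Tendsto
        (fun n : ℕ =>
          (Nat.card {G : SimpleGraph (Fin n) //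
              G.edgeSet.ncard = ⌊(c - ε) * (n : ℝ)⌋₊ ∧ G.Colorable k} : ℝ) /
          (Nat.card {G : SimpleGraph (Fin n) //
              G.edgeSet.ncard = ⌊(c - ε) * (n : ℝ)⌋₊} : ℝ))
        Filter.atTop (nhds 1) ∧
      Filter.Tendsto
        (fun n : ℕ =>
          (Nat.card {G : SimpleGraph (Fin n) //
              G.edgeSet.ncard = ⌊(c + ε) * (n : ℝ)⌋₊ ∧ G.Colorable k} : ℝ) /
          (Nat.card {G : SimpleGraph (Fin n) //
              G.edgeSet.ncard = ⌊(c + ε) * (n : ℝ)⌋₊} : ℝ))
        Filter.atTop (nhds 0) :=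
  Pool.ER.frozen_of_main Pool.ER.MainFinal

end Pool.Agent.S19279
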