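import Pool.Statements.S19653
import Pool.Agent.Work.MP_d1e9a6_pr.StmtA
import Pool.Agent.Work.MP_d1e9a6_pr_final.Assemble

set_option autoImplicit false
open Classical
open Pool Pool.MP_d1e9a6_pr

namespace Pool.Agent.S19653

/-- For fixed k ≥ 3 and ε > 0, if n^ε/n^{1/k} ≤ p(n) ≤ n^{-ε}/n^{1/(k+1)} eventually, then the probability that the clique complex of G(n,p) is homotopy equivalent to a wedge of k-spheres tends to 1. -/
theorem result :
    ∀ k : ℕ, 3 ≤ k → ∀ ε : ℝ, 0 < ε → ∀ p : ℕ → ℝ,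
      (∀ᶠ n : ℕ in Filter.atTop,
        (n : ℝ) ^ ε / (n : ℝ) ^ (1 / (k : ℝ)) ≤ p n ∧
        p n ≤ (n : ℝ) ^ (-ε) / (n : ℝ) ^ (1 / ((k : ℝ) + 1))) →
      Filter.Tendsto
        (fun n : ℕ =>
          ∑ G ∈ (Finset.univ : Finset (SimpleGraph (Fin n))).filter
              (fun G => ∃ m : ℕ, Nonempty (ContinuousMap.HomotopyEquiv
                {x : Fin n → ℝ // ∃ s : Finset (Fin n), G.IsClique (s : Set (Fin n)) ∧
                    x ∈ convexHull ℝ ((fun i : Fin n => (Pi.single i (1 : ℝ) : Fin n → ℝ)) '' (s : Set (Fin n)))}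
                {y : Fin m × Fin (k + 1) → ℝ // y = 0 ∨ ∃ i : Fin m,
                    (∀ j : Fin m, ∀ t : Fin (k + 1), j ≠ i → y (j, t) = 0) ∧
                    ∑ t : Fin (k + 1), (y (i, t)) ^ 2 = 2 * y (i, 0)})),
            p n ^ G.edgeFinset.card * (1 - p n) ^ (n.choose 2 - G.edgeFinset.card))
        Filter.atTop (nhds 1) :=
  Pool.Agent.Work.MP_d1e9a6_pr.assemble Pool.Agent.Work.MP_d1e9a6_pr.stmt_A

end Pool.Agent.S19653
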